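import Pool.Agent.Lib.MP_0da313_nt.TC.E.M

set_option autoImplicit false

namespace Pool.Agent.TC.E

open Finset Filter Polynomial
open Pool.Agent.TC (wN)
open Pool.Agent.GC (Pm)

private theorem te_pm_log (C : ℝ) (hC : 0 < C) : ∀ᶠ L : ℝ in atTop, (Real.log L) ^ 2 ≤ L / C := by
  have h := (Real.isLittleO_pow_log_id_atTop (n := 2)).bound (inv_pos.2 hC)
  filter_upwards [h, eventually_ge_atTop (0 : ℝ)] with L hL h0
  simp only [id, Real.norm_eq_abs, abs_of_nonneg (sq_nonneg (Real.log L)), abs_of_nonneg h0] at hL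
  rw [div_eq_inv_mul]
  exact hL

/-- The statement `S_pm`. -/
theorem p_pm : S_pm := by
  intro K0 B1 t ht hB
  set C : ℝ := 200 * B1 * (4 * K0 + 3) + 1 with hC
  have hC0 : 0 < C := by positivity
  have hlog : Tendsto (fun N : ℕ => Real.log (N : ℝ)) atTop atTop :=
    Real.tendsto_log_atTop.comp tendsto_natCast_atTop_atTop
  filter_upwards [hlog.eventually (te_pm_log C hC0),
    hlog.eventually (eventually_ge_atTop ((2 : ℝ) ^ K0 + 1)),
    hlog.eventually (eventually_ge_atTop (2 * |Real.log t|)),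
    hlog.eventually (eventually_ge_atTop (2 * Real.exp 1)), eventually_ge_atTop 1]
    with N h1 h2 h3 h4 hN
  set L : ℝ := Real.log (N : ℝ) with hL
  have he : (2 : ℝ) ≤ Real.exp 1 := by
    have := Real.add_one_le_exp (1 : ℝ)
    linarith
  have hN0 : (0 : ℝ) < N := by exact_mod_cast hN
  have hX : Real.log (t * N) = Real.log t + L := Real.log_mul ht.ne' hN0.ne'
  have ha := abs_le.1 (le_of_eq (rfl : |Real.log t| = |Real.log t|))
  have hXu : Real.log (t * N) ≤ 2 * L := by rw [hX]; linarith [ha.2]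
  have hXl : L / 2 ≤ Real.log (t * N) := by rw [hX]; linarith [ha.1]
  have hL1 : 1 ≤ L := by linarith
  have hX2 : Real.exp 1 ≤ Real.log (t * N) := by linarith
  have hX1 : 1 ≤ Real.log (t * N) := by linarith
  have hll0 : 0 ≤ Real.log (Real.log (t * N)) := Real.log_nonneg hX1
  have hu1 : 1 ≤ Real.log L := by
    rw [← Real.log_exp 1]
    exact Real.log_le_log (Real.exp_pos 1) (by linarith)
  have hllu : Real.log (Real.log (t * N)) ≤ Real.log L + 1 := by
    have h5 : Real.log (Real.log (t * N)) ≤ Real.log (Real.exp 1 * L) :=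
      Real.log_le_log (by linarith) (by nlinarith)
    rw [Real.log_mul (Real.exp_pos 1).ne' (by linarith), Real.log_exp] at h5
    linarith
  have hxpos : 0 < t * N := mul_pos ht hN0
  refine ⟨2 * ⌈(K0 : ℝ) * Real.log (Real.log (t * N))⌉₊, ?_, ?_, even_two_mul _, ?_⟩
  · -- w_ge
    have h5 : L ^ B1 < (wN B1 N : ℝ) + 1 := Nat.lt_floor_add_one _
    have h6 : L ^ (K0 + 1) ≤ L ^ B1 := pow_le_pow_right₀ hL1 hB
    have h7 : (Real.log (t * N)) ^ K0 ≤ (2 * L) ^ K0 := pow_le_pow_left₀ (by linarith) hXu _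
    have h8 : (1 : ℝ) ≤ L ^ K0 := one_le_pow₀ hL1
    have h9 : L ^ (K0 + 1) = L * L ^ K0 := by ring
    rw [mul_pow] at h7
    nlinarith
  · -- k_ge
    have h5 := Nat.le_ceil ((K0 : ℝ) * Real.log (Real.log (t * N)))
    have h6 : (0 : ℝ) ≤ (⌈(K0 : ℝ) * Real.log (Real.log (t * N))⌉₊ : ℝ) := Nat.cast_nonneg _
    push_cast
    linarith
  · -- wk
    have hkn : (0 : ℝ) ≤ (K0 : ℝ) * Real.log (Real.log (t * N)) := by positivity
    have h5 := Nat.ceil_lt_add_one hkn
    set k : ℕ := ⌈(K0 : ℝ) * Real.log (Real.log (t * N))⌉₊ with hk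
    have hw : (wN B1 N : ℝ) ≤ L ^ B1 := Nat.floor_le (by positivity)
    have h6 : (wN B1 N : ℝ) ^ (2 * k + 1) ≤ (L ^ B1) ^ (2 * k + 1) :=
      pow_le_pow_left₀ (Nat.cast_nonneg _) hw _
    refine h6.trans ?_
    rw [Real.rpow_def_of_pos hxpos]
    have hLe : L = Real.exp (Real.log L) := (Real.exp_log (by linarith)).symm
    have h7 : (L ^ B1) ^ (2 * k + 1) = Real.exp (Real.log L * (B1 * (2 * k + 1))) := by
      rw [← pow_mul]
      conv_lhs => rw [hLe]
      rw [← Real.exp_nat_mul]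
      congr 1
      push_cast
      ring
    rw [h7, Real.exp_le_exp]
    have h8 : (2 * (k : ℝ) + 1) ≤ Real.log L * (4 * K0 + 3) := by
      have hK : (0 : ℝ) ≤ K0 := Nat.cast_nonneg _
      have h9 : (K0 : ℝ) * Real.log (Real.log (t * N)) ≤ K0 * (Real.log L + 1) :=
        mul_le_mul_of_nonneg_left hllu hK
      nlinarith
    have hB0 : (0 : ℝ) ≤ B1 := Nat.cast_nonneg _
    have h9 : Real.log L * (B1 * (2 * k + 1)) ≤ Real.log L * (B1 * (Real.log L * (4 * K0 + 3))) :=
      mul_le_mul_of_nonneg_left (mul_le_mul_of_nonneg_left h8 hB0) (by linarith)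
    refine h9.trans ?_
    have h10 : (Real.log L) ^ 2 * C ≤ L := by
      rwa [le_div_iff₀ hC0] at h1
    have h11 : 0 ≤ (Real.log L) ^ 2 := sq_nonneg _
    have h12 : Real.log L * (B1 * (Real.log L * (4 * K0 + 3))) * 200 ≤ L := by
      rw [hC] at h10
      nlinarith
    linarith

end Pool.Agent.TC.E
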