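import Pool.Agent.Lib.MP_0da313_nt.TC.E.M

set_option autoImplicit false

/-!
Project TC, section E, piece EX: the interface `TC.R_EX`.
-/

namespace Pool.Agent.TC.E

open Finset Filter Polynomial
open Pool.Agent.CH (thP)
open Pool.Agent.CM (wd Fam)
open Pool.Agent.MP89da58 (tri)
open Pool.Agent.TC (Lw wN la4 sq Cq Er ErS Per Blk)
open Pool.Agent.GC (HH tz ES Pm prs dv)

lemma te_EX_t_pos {ι : Type} [Fintype ι] [DecidableEq ι] {D : ℕ} (F : Fam ι D) (l : Option ι) :
    0 < F.t l := by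
  have h1 := F.hth l
  have h2 : 0 < |(F.u l : ℝ)| := abs_pos.2 (by exact_mod_cast F.hu l)
  have h3 := F.hhw
  have h4 : 0 < |(F.u l : ℝ)| * F.hw := mul_pos h2 h3
  have e : F.t l = F.u l * F.xi + F.b l := rfl
  rw [e]
  linarith

lemma te_EX_sq_nonneg {ι : Type} [Fintype ι] [DecidableEq ι] {D : ℕ} (F : Fam ι D) (N : ℕ)
    (j : Option ι) (m : ℕ) : 0 ≤ sq F N j m := by
  unfold sq
  apply mul_nonneg
  · unfold thP
    split_ifs
    · exact Real.log_natCast_nonneg m
    · exact le_refl 0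
  · unfold wd tri
    exact le_max_left _ _

lemma te_EX_Pm_mono {X ε : ℝ} {K K' w k : ℕ} (hK : K ≤ K') (h1 : 1 ≤ Real.log X)
    (h : Pm X ε K' w k) : Pm X ε K w k := by
  refine ⟨(pow_le_pow_right₀ h1 hK).trans h.w_ge, ?_, h.even, h.wk⟩
  refine le_trans ?_ h.k_ge
  exact mul_le_mul_of_nonneg_right (by exact_mod_cast hK) (Real.log_nonneg h1)

lemma te_EX_tz {y : ℝ} (h : |y - 1| ≤ 1 / 100) : tz y = 1 := by
  unfold tz
  have h1 : (1 : ℝ) ≤ 2 - 100 * |y - 1| := by linarith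
  rw [min_eq_left]
  exact h1.trans (le_max_right _ _)

theorem p_EX : S_EX := by
  classical
  intro hms hhl hloc hpm ι _ _ D F hper i j hij κ hB A b
  obtain ⟨K1, h1⟩ := hms ι D F hper i j hij κ hB (A + 1) b
  obtain ⟨K2, h2⟩ := hhl ι D F i j κ hB (A + 1) b
  refine ⟨max K1 K2 + 1, fun B1 hB1 => ?_⟩
  have ht := te_EX_t_pos F i
  have hlogN : Tendsto (fun N : ℕ => Real.log (N : ℝ)) atTop atTop :=
    Real.tendsto_log_atTop.comp tendsto_natCast_atTop_atTop
  have hlogX : Tendsto (fun N : ℕ => Real.log (F.t i * (N : ℝ))) atTop atTop :=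
    Real.tendsto_log_atTop.comp (tendsto_natCast_atTop_atTop.const_mul_atTop ht)
  filter_upwards [h1, h2, hloc ι D F κ hB, hpm (max K1 K2) B1 (F.t i) ht hB1,
    hlogN.eventually_ge_atTop 2, hlogX.eventually_ge_atTop 1, eventually_ge_atTop 1]
    with N h1 h2 hloc hpm hN hX hN1
  obtain ⟨k, hk⟩ := hpm
  have hk1 : Pm (F.t i * N) (1 / 100) K1 (wN B1 N) k :=
    te_EX_Pm_mono (le_max_left K1 K2) hX hk
  have hk2 : Pm (F.t i * N) (1 / 100) K2 (wN B1 N) k :=
    te_EX_Pm_mono (le_max_right K1 K2) hX hk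
  specialize h1 (wN B1 N) k hk1
  specialize h2 (wN B1 N) k hk2
  set w := wN B1 N with hw
  have hN0 : (0 : ℝ) < N := by exact_mod_cast hN1
  have hL0 : 0 < Real.log (N : ℝ) := by linarith
  have hpw : (0 : ℝ) < (Real.log N) ^ A := by positivity
  -- the pointwise identity
  have key : ∀ n ∈ Ioc N (N + N / κ), ∀ q c : ℕ, |Er F N w n i j q c| ≤
      |∑ x ∈ (Ioo 0 n).filter (fun x : ℕ => x ≡ c [MOD q]), tm F N w k n i j x| +
      ∑ x ∈ (Ioo 0 n).filter (fun x : ℕ => x ≡ c [MOD q]),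
        |HH w k (F.L n i x).toNat - Lw w (F.L n i x).toNat| * sq F N j (F.L n j x).toNat := by
    intro n hn q c
    have e : Er F N w n i j q c =
        ∑ x ∈ (Ioo 0 n).filter (fun x : ℕ => x ≡ c [MOD q]), tm F N w k n i j x +
        ∑ x ∈ (Ioo 0 n).filter (fun x : ℕ => x ≡ c [MOD q]),
          (HH w k (F.L n i x).toNat - Lw w (F.L n i x).toNat) * sq F N j (F.L n j x).toNat := by
      unfold Er
      rw [← sum_add_distrib]
      refine sum_congr rfl fun x _ => ?_
      by_cases hs : sq F N j (F.L n j x).toNat = 0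
      · unfold tm
        rw [hs]
        ring
      · obtain ⟨_, _, h3, h4⟩ := hloc n hn i j x hs
        have e1 : ((F.L n i x).toNat : ℝ) = (F.L n i x : ℝ) := by
          have := Int.toNat_of_nonneg h3.le
          exact_mod_cast this
        unfold tm
        rw [e1, te_EX_tz h4]
        ring
    rw [e]
    refine (abs_add_le _ _).trans (add_le_add le_rfl ?_)
    refine (abs_sum_le_sum_abs _ _).trans (sum_le_sum fun x _ => ?_)
    rw [abs_mul, abs_of_nonneg (te_EX_sq_nonneg F N j _)]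
  refine le_trans ?_ (h1.trans ?_)
  · refine Nat.cast_le.2 (card_le_card ?_)
    intro n hn
    rw [mem_filter] at hn ⊢
    refine ⟨hn.1, ?_⟩
    have hE : ErS F N w n b i j ≤
        ∑ q ∈ (Icc 1 ⌊(N : ℝ) ^ (1 / 1000 : ℝ)⌋₊).filter Squarefree, (b : ℝ) ^ q.primeFactors.card *
          ∑ c ∈ Cq F n q i j,
            |∑ x ∈ (Ioo 0 n).filter (fun x : ℕ => x ≡ c [MOD q]), tm F N w k n i j x| +
        ∑ q ∈ (Icc 1 ⌊(N : ℝ) ^ (1 / 1000 : ℝ)⌋₊).filter Squarefree, (b : ℝ) ^ q.primeFactors.card *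
          ∑ c ∈ Cq F n q i j, ∑ x ∈ (Ioo 0 n).filter (fun x : ℕ => x ≡ c [MOD q]),
            |HH w k (F.L n i x).toNat - Lw w (F.L n i x).toNat| * sq F N j (F.L n j x).toNat := by
      unfold ErS
      rw [← sum_add_distrib]
      refine sum_le_sum fun q _ => ?_
      rw [← mul_add, ← sum_add_distrib]
      exact mul_le_mul_of_nonneg_left (sum_le_sum fun c _ => key n hn.1 q c) (by positivity)
    have h3 := h2 n hn.1
    have h4 := hn.2
    have h5 : (N : ℝ) / (Real.log N) ^ A = Real.log N * (N / (Real.log N) ^ (A + 1)) := by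
      field_simp
      ring
    have h6 : 0 < (N : ℝ) / (Real.log N) ^ (A + 1) := by positivity
    have h7 : 2 * ((N : ℝ) / (Real.log N) ^ (A + 1)) ≤
        Real.log N * (N / (Real.log N) ^ (A + 1)) := mul_le_mul_of_nonneg_right hN h6.le
    linarith
  · apply div_le_div_of_nonneg_left hN0.le hpw
    exact pow_le_pow_right₀ (by linarith) (by omega)

end Pool.Agent.TC.E
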