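import Pool.Agent.Lib.MP_0da313_nt.TC.E.M
import Pool.Agent.Lib.MP_89da58_nt.BvW

set_option autoImplicit false

/-!
[TE bvU]: the exponential sums for the moduli `U q`.
-/

namespace Pool.Agent.TC.E

open Finset Filter
open Pool.Agent.CH (thP)
open Pool.Agent.SP80 (ex)
open Pool.Agent.GC (HH tz ES Pm)
open Pool.Agent.MP89da58 (sum_omega_le)

private theorem te_bvU_Pm {X ε : ℝ} {K K' w k : ℕ} (hL : 1 ≤ Real.log X) (hK : K' ≤ K)
    (h : Pm X ε K w k) : Pm X ε K' w k := by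
  have hLL : 0 ≤ Real.log (Real.log X) := Real.log_nonneg hL
  refine ⟨le_trans (pow_le_pow_right₀ hL hK) h.w_ge, ?_, h.even, h.wk⟩
  refine le_trans ?_ h.k_ge
  have : (K' : ℝ) ≤ K := by exact_mod_cast hK
  nlinarith

private theorem te_bvU_ex (x : ℝ) : ‖ex x‖ = 1 := by
  unfold ex
  exact Complex.norm_exp_ofReal_mul_I _

private theorem te_bvU_tz (y : ℝ) : 0 ≤ tz y ∧ tz y ≤ 1 := by
  unfold tz
  exact ⟨le_min zero_le_one (le_max_left _ _), min_le_left _ _⟩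

/-- The trivial bound for the exponential sum. -/
private theorem te_bvU_triv (w k : ℕ) (X : ℝ) (d a : ℕ) (θ : ℝ) :
    ‖ES w k X d a θ‖ ≤
      ∑ t ∈ (Icc 1 ⌊2 * X⌋₊).filter (fun t => t ≡ a [MOD d]), |thP t - HH w k t| := by
  unfold ES
  refine (norm_sum_le _ _).trans (Finset.sum_le_sum fun t _ => ?_)
  rw [norm_mul, te_bvU_ex, mul_one, Complex.norm_real, Real.norm_eq_abs, abs_mul,
    abs_of_nonneg (te_bvU_tz _).1]
  exact mul_le_of_le_one_right (abs_nonneg _) (te_bvU_tz _).2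

theorem p_bvU : S_bvU := by
  classical
  intro hun htr A b U hU
  obtain ⟨K0, hK0⟩ := hun (2 * A + b ^ 2 + 6)
  refine ⟨K0 + 1, ?_⟩
  have hUlim : ∀ᶠ X : ℝ in atTop, (U : ℝ) ≤ X ^ (1 / 100 : ℝ) :=
    (tendsto_rpow_atTop (by norm_num)).eventually_ge_atTop _
  filter_upwards [hK0, htr, hUlim, Real.tendsto_log_atTop.eventually_ge_atTop (2 : ℝ),
    eventually_ge_atTop (2 : ℝ)] with X hX1 hX2 hX3 hL2 hX4
  intro w k hP
  have hXpos : 0 < X := by linarith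
  set L := Real.log X with hLdef
  have hLpos : 0 < L := by linarith
  have hPK : Pm X (1 / 100) K0 w k := te_bvU_Pm (by linarith) (by omega) hP
  have hP1 : Pm X (1 / 100) 1 w k := te_bvU_Pm (by linarith) (by omega) hP
  have hXun := hX1 w k hPK
  have hXtr := hX2 w k hP1
  have hUX : ∀ q : ℕ, (q : ℝ) ≤ X ^ (1 / 100 : ℝ) → ((U * q : ℕ) : ℝ) ≤ X ^ (1 / 50 : ℝ) := by
    intro q hq
    push_cast
    have h1 : X ^ (1 / 50 : ℝ) = X ^ (1 / 100 : ℝ) * X ^ (1 / 100 : ℝ) := by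
      rw [← Real.rpow_add hXpos]; norm_num
    rw [h1]
    exact mul_le_mul hX3 hq (Nat.cast_nonneg _) (Real.rpow_nonneg hXpos.le _)
  -- the set of values
  let V : ℕ → Set ℝ := fun q => {y | ∃ (a : ℕ) (θ : ℝ), a.Coprime (U * q) ∧ y = ‖ES w k X (U * q) a θ‖}
  let E : ℕ → ℝ := fun q => if 1 ≤ q ∧ (q : ℝ) ≤ X ^ (1 / 100 : ℝ) then sSup (V q) else 0
  have hVb : ∀ q : ℕ, 1 ≤ q → (q : ℝ) ≤ X ^ (1 / 100 : ℝ) → ∀ y ∈ V q, y ≤ X / q * L ^ 4 := by
    rintro q hq1 hq2 y ⟨a, θ, ha, rfl⟩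
    refine (te_bvU_triv w k X (U * q) a θ).trans ?_
    refine (hXtr (U * q) a (Nat.mul_pos hU hq1) (hUX q hq2) ha).trans ?_
    apply mul_le_mul_of_nonneg_right _ (by positivity)
    have hq' : (0 : ℝ) < q := by exact_mod_cast hq1
    apply div_le_div_of_nonneg_left hXpos.le hq'
    push_cast
    have : (1 : ℝ) ≤ U := by exact_mod_cast hU
    exact le_mul_of_one_le_left hq'.le this
  have hVne : ∀ q, (V q).Nonempty := fun q =>
    ⟨_, 1, 0, Nat.coprime_one_left _, rfl⟩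
  have hV0 : ∀ q, ∀ y ∈ V q, 0 ≤ y := by
    rintro q y ⟨a, θ, _, rfl⟩
    exact norm_nonneg _
  have hVbdd : ∀ q : ℕ, 1 ≤ q → (q : ℝ) ≤ X ^ (1 / 100 : ℝ) → BddAbove (V q) := fun q h1 h2 =>
    ⟨_, fun y hy => hVb q h1 h2 y hy⟩
  have hE0 : ∀ q, 0 ≤ E q := by
    intro q
    simp only [E]
    split_ifs with h
    · exact Real.sSup_nonneg (hV0 q)
    · exact le_rfl
  have hEle : ∀ q : ℕ, 1 ≤ q → (q : ℝ) ≤ X ^ (1 / 100 : ℝ) → E q ≤ X / q * L ^ 4 := by
    intro q h1 h2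
    simp only [E]
    rw [if_pos ⟨h1, h2⟩]
    exact csSup_le (hVne q) (hVb q h1 h2)
  -- almost extremal choices
  have hch : ∀ q : ℕ, ∃ (a : ℕ) (θ : ℝ), a.Coprime (U * q) ∧
      (1 ≤ q → (q : ℝ) ≤ X ^ (1 / 100 : ℝ) → E q ≤ 2 * ‖ES w k X (U * q) a θ‖) := by
    intro q
    by_cases h : 1 ≤ q ∧ (q : ℝ) ≤ X ^ (1 / 100 : ℝ)
    · by_cases hp : 0 < E q
      · have h1 : E q / 2 < sSup (V q) := by
          have : E q = sSup (V q) := if_pos h
          rw [← this]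
          linarith
        obtain ⟨y, ⟨a, θ, ha, rfl⟩, hy⟩ := exists_lt_of_lt_csSup (hVne q) h1
        exact ⟨a, θ, ha, fun _ _ => by linarith⟩
      · refine ⟨1, 0, Nat.coprime_one_left _, fun _ _ => ?_⟩
        have := norm_nonneg (ES w k X (U * q) 1 0)
        linarith
    · exact ⟨1, 0, Nat.coprime_one_left _, fun h1 h2 => absurd ⟨h1, h2⟩ h⟩
  choose a θ haθ using hch
  refine ⟨E, hE0, ?_, ?_⟩
  · intro q a' θ' h1 h2 ha'
    simp only [E]
    rw [if_pos ⟨h1, h2⟩]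
    exact le_csSup (hVbdd q h1 h2) ⟨a', θ', ha', rfl⟩
  set N := ⌊X ^ (1 / 100 : ℝ)⌋₊ with hN
  have hXp : 0 ≤ X ^ (1 / 100 : ℝ) := Real.rpow_nonneg hXpos.le _
  have hN1 : 1 ≤ N := Nat.le_floor (by
    push_cast
    exact Real.one_le_rpow (by linarith) (by norm_num))
  have hNle : (N : ℝ) ≤ X ^ (1 / 100 : ℝ) := Nat.floor_le hXp
  have hNpos : (0 : ℝ) < N := by exact_mod_cast hN1
  have hlogN : Real.log N ≤ 1 / 100 * L := by
    have := Real.log_le_log hNpos hNle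
    rwa [Real.log_rpow hXpos] at this
  have hlogN0 : 0 ≤ Real.log N := Real.log_nonneg (by exact_mod_cast hN1)
  have hqN : ∀ q ∈ (Icc 1 N).filter Squarefree, 1 ≤ q ∧ (q : ℝ) ≤ X ^ (1 / 100 : ℝ) := by
    intro q hq
    obtain ⟨hq1, hq2⟩ := Finset.mem_Icc.1 (Finset.mem_filter.1 hq).1
    exact ⟨hq1, le_trans (by exact_mod_cast hq2) hNle⟩
  -- the unweighted sum
  have hsum1 : ∑ q ∈ (Icc 1 N).filter Squarefree, E q ≤ 2 * (X / L ^ (2 * A + b ^ 2 + 6)) := by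
    let a' : ℕ → ℕ := fun Q => if U ∣ Q then a (Q / U) else 1
    let θ' : ℕ → ℝ := fun Q => θ (Q / U)
    have ha' : ∀ Q, (a' Q).Coprime Q := by
      intro Q
      by_cases h : U ∣ Q
      · simp only [a', h, if_true]
        have := (haθ (Q / U)).1
        rwa [Nat.mul_div_cancel' h] at this
      · simp only [a', h, if_false]
        exact Nat.coprime_one_left Q
    have hmain := hXun a' θ' ha'
    have h0 : ∑ q ∈ (Icc 1 N).filter Squarefree, E q ≤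
        ∑ q ∈ (Icc 1 N).filter Squarefree, 2 * ‖ES w k X (U * q) (a q) (θ q)‖ := by
      refine Finset.sum_le_sum fun q hq => ?_
      obtain ⟨h1, h2⟩ := hqN q hq
      exact (haθ q).2 h1 h2
    refine h0.trans ?_
    rw [← Finset.mul_sum]
    refine mul_le_mul_of_nonneg_left (le_trans ?_ hmain) (by norm_num)
    have hinj : Set.InjOn (fun q => U * q) ((Icc 1 N).filter Squarefree : Finset ℕ) :=
      fun q _ q' _ h => Nat.eq_of_mul_eq_mul_left hU h
    have h1 : ∑ q ∈ (Icc 1 N).filter Squarefree, ‖ES w k X (U * q) (a q) (θ q)‖ =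
        ∑ Q ∈ ((Icc 1 N).filter Squarefree).image (fun q => U * q),
          ‖ES w k X Q (a' Q) (θ' Q)‖ := by
      rw [Finset.sum_image hinj]
      refine Finset.sum_congr rfl fun q _ => ?_
      simp only [a', θ', dvd_mul_right, if_true, Nat.mul_div_cancel_left q hU]
    rw [h1]
    refine Finset.sum_le_sum_of_subset_of_nonneg ?_ fun _ _ _ => norm_nonneg _
    intro Q hQ
    obtain ⟨q, hq, rfl⟩ := Finset.mem_image.1 hQ
    obtain ⟨hq1, hq2⟩ := hqN q hq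
    exact Finset.mem_Icc.2 ⟨Nat.mul_pos hU hq1, Nat.le_floor (hUX q hq2)⟩
  -- the weighted trivial bound
  have hsum2 : ∑ q ∈ (Icc 1 N).filter Squarefree, ((b : ℝ) ^ q.primeFactors.card) ^ 2 * E q ≤
      X * L ^ 4 * L ^ (b ^ 2) := by
    have h1 : ∀ q ∈ (Icc 1 N).filter Squarefree, ((b : ℝ) ^ q.primeFactors.card) ^ 2 * E q ≤
        X * L ^ 4 * (((b ^ 2 : ℕ) : ℝ) ^ q.primeFactors.card / q) := by
      intro q hq
      obtain ⟨hq1, hq2⟩ := hqN q hq
      have h3 := hEle q hq1 hq2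
      calc ((b : ℝ) ^ q.primeFactors.card) ^ 2 * E q
          ≤ ((b : ℝ) ^ q.primeFactors.card) ^ 2 * (X / q * L ^ 4) :=
            mul_le_mul_of_nonneg_left h3 (by positivity)
        _ = _ := by
            push_cast
            rw [← pow_mul, ← pow_mul, mul_comm 2]
            ring
    refine (Finset.sum_le_sum h1).trans ?_
    rw [← Finset.mul_sum]
    apply mul_le_mul_of_nonneg_left _ (by positivity)
    refine (sum_omega_le (b ^ 2) N hN1).trans ?_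
    exact pow_le_pow_left₀ (by linarith) (by linarith) _
  -- Cauchy-Schwarz
  have hCS := Finset.sum_mul_sq_le_sq_mul_sq ((Icc 1 N).filter Squarefree)
    (fun q => (b : ℝ) ^ q.primeFactors.card * Real.sqrt (E q)) (fun q => Real.sqrt (E q))
  have h1 : ∑ q ∈ (Icc 1 N).filter Squarefree,
      ((b : ℝ) ^ q.primeFactors.card * Real.sqrt (E q)) * Real.sqrt (E q) =
      ∑ q ∈ (Icc 1 N).filter Squarefree, (b : ℝ) ^ q.primeFactors.card * E q := by
    refine Finset.sum_congr rfl fun q _ => ?_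
    rw [mul_assoc, Real.mul_self_sqrt (hE0 q)]
  have h2 : ∑ q ∈ (Icc 1 N).filter Squarefree,
      ((b : ℝ) ^ q.primeFactors.card * Real.sqrt (E q)) ^ 2 =
      ∑ q ∈ (Icc 1 N).filter Squarefree, ((b : ℝ) ^ q.primeFactors.card) ^ 2 * E q := by
    refine Finset.sum_congr rfl fun q _ => ?_
    rw [mul_pow, Real.sq_sqrt (hE0 q)]
  have h3 : ∑ q ∈ (Icc 1 N).filter Squarefree, Real.sqrt (E q) ^ 2 =
      ∑ q ∈ (Icc 1 N).filter Squarefree, E q :=
    Finset.sum_congr rfl fun q _ => Real.sq_sqrt (hE0 q)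
  rw [h1, h2, h3] at hCS
  have h4 : (∑ q ∈ (Icc 1 N).filter Squarefree, ((b : ℝ) ^ q.primeFactors.card) ^ 2 * E q) *
      (∑ q ∈ (Icc 1 N).filter Squarefree, E q) ≤
      X * L ^ 4 * L ^ (b ^ 2) * (2 * (X / L ^ (2 * A + b ^ 2 + 6))) :=
    mul_le_mul hsum2 hsum1 (Finset.sum_nonneg fun q _ => hE0 q) (by positivity)
  have h5 : X * L ^ 4 * L ^ (b ^ 2) * (2 * (X / L ^ (2 * A + b ^ 2 + 6))) ≤
      (X / L ^ A) ^ 2 := by
    have h6 : L ^ (2 * A + b ^ 2 + 6) = L ^ A * L ^ A * L ^ (b ^ 2) * L ^ 4 * L ^ 2 := by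
      ring
    rw [h6]
    have h7 : X * L ^ 4 * L ^ (b ^ 2) *
        (2 * (X / (L ^ A * L ^ A * L ^ (b ^ 2) * L ^ 4 * L ^ 2))) = 2 / L ^ 2 * (X / L ^ A) ^ 2 := by
      field_simp
    rw [h7]
    have h8 : 2 / L ^ 2 ≤ 1 := by
      rw [div_le_one (by positivity)]
      nlinarith
    have h9 : 0 ≤ (X / L ^ A) ^ 2 := sq_nonneg _
    exact mul_le_of_le_one_left h9 h8
  have h6 : (∑ q ∈ (Icc 1 N).filter Squarefree, (b : ℝ) ^ q.primeFactors.card * E q) ^ 2 ≤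
      (X / L ^ A) ^ 2 := hCS.trans (h4.trans h5)
  exact le_of_sq_le_sq h6 (by positivity)

end Pool.Agent.TC.E
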