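import Pool.Agent.Lib.MP_0da313_nt.TC.E.M
import Pool.Agent.Lib.MP_89da58_nt.BvW

set_option autoImplicit false

/-!
Project TC, section E, piece hl: the difference of the two models.
-/

namespace Pool.Agent.TC.E

open Finset Filter Polynomial
open Pool.Agent.MP89da58 (kapD tri tri_nonneg tri_le_one sum_omega_le)
open Pool.Agent.CH (thP)
open Pool.Agent.CM (wd Fam)
open Pool.Agent.TC (Lw wN la4 sq Cq Er ErS Per Blk)
open Pool.Agent.GC (HH Pm prs dv)
open Pool.Agent.Lib.MP_0da313_nt (W U E W_le_U U_le_W_add_E)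

private lemma hl_mem_prs {w p : ℕ} : p ∈ prs w ↔ p.Prime ∧ p ≤ w := by
  unfold GC.prs
  rw [mem_filter, mem_Icc]
  constructor
  · rintro ⟨⟨_, h⟩, hp⟩
    exact ⟨hp, h⟩
  · rintro ⟨hp, h⟩
    exact ⟨⟨hp.one_lt.le, h⟩, hp⟩

private lemma hl_kap_pos (w : ℕ) : 0 < kapD w := by
  unfold MP89da58.kapD
  refine Finset.prod_pos fun p hp => ?_
  have hp2 := (mem_filter.1 hp).2.two_le
  have h2 : (2 : ℝ) ≤ p := by exact_mod_cast hp2
  have h3 : 1 / (p : ℝ) ≤ 1 / 2 := by
    apply one_div_le_one_div_of_le (by norm_num) h2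
  linarith

private lemma hl_Lw (w t : ℕ) : Lw w t = (kapD w)⁻¹ * W (dv t) (prs w) := by
  unfold TC.Lw Lib.MP_0da313_nt.W
  by_cases h : ∀ p : ℕ, p.Prime → p ≤ w → ¬ p ∣ t
  · rw [if_pos h, Finset.prod_eq_one, mul_one]
    intro p hp
    rw [hl_mem_prs] at hp
    unfold GC.dv
    rw [if_neg (h p hp.1 hp.2), sub_zero]
  · rw [if_neg h]
    push Not at h
    obtain ⟨p, hp, hpw, hpt⟩ := h
    rw [Finset.prod_eq_zero (i := p) (hl_mem_prs.2 ⟨hp, hpw⟩), mul_zero]
    unfold GC.dv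
    rw [if_pos hpt, sub_self]

private lemma hl_dv01 (t p : ℕ) : 0 ≤ dv t p ∧ dv t p ≤ 1 := by
  unfold GC.dv
  split <;> norm_num

private lemma hl_diff (w k t : ℕ) (hk : Even k) :
    |HH w k t - Lw w t| ≤ (kapD w)⁻¹ * E (dv t) (prs w) (k + 1) := by
  have hκ := (inv_pos.2 (hl_kap_pos w)).le
  rw [hl_Lw]
  unfold GC.HH
  have h1 := W_le_U (dv t) (prs w) (fun p _ => (hl_dv01 t p).1) (fun p _ => (hl_dv01 t p).2) hk
  have h2 := U_le_W_add_E (dv t) (prs w) (fun p _ => (hl_dv01 t p).1)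
    (fun p _ => (hl_dv01 t p).2) hk
  rw [← mul_sub, abs_of_nonneg (mul_nonneg hκ (by linarith))]
  exact mul_le_mul_of_nonneg_left (by linarith) hκ

variable {ι : Type} [Fintype ι] [DecidableEq ι] {D : ℕ}

private lemma hl_cnt (F : Fam ι D) (n q : ℕ) (hn : F.N0 ≤ n) (hq : 1 ≤ q) (i j : Option ι)
    (c : ℕ) (hc : c ∈ Cq F n q i j) (S : Finset ℕ) (hS : ∀ p ∈ S, p.Prime) :
    (((Ioo 0 n).filter (fun x : ℕ => x ≡ c [MOD q] ∧
      ∀ p ∈ S, (p : ℤ) ∣ F.L n i x)).card : ℝ) ≤ (n : ℝ) / q * (1 / ((∏ p ∈ S, p : ℕ) : ℝ)) + 1 := by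
  classical
  set T := (Ioo 0 n).filter (fun x : ℕ => x ≡ c [MOD q] ∧ ∀ p ∈ S, (p : ℤ) ∣ F.L n i x) with hT
  have hS0 : 0 < ∏ p ∈ S, p := Finset.prod_pos fun p hp => (hS p hp).pos
  have hpos : (0 : ℝ) ≤ (n : ℝ) / q * (1 / ((∏ p ∈ S, p : ℕ) : ℝ)) := by positivity
  rcases T.eq_empty_or_nonempty with he | hne
  · rw [he, card_empty]
    push_cast at hpos ⊢
    linarith
  · set x0 := T.min' hne with hx0
    have hx0T : x0 ∈ T := T.min'_mem hne
    have hmem : ∀ x, x ∈ T ↔ (0 < x ∧ x < n) ∧ x ≡ c [MOD q] ∧ ∀ p ∈ S, (p : ℤ) ∣ F.L n i x := by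
      intro x
      rw [hT, mem_filter, mem_Ioo]
    obtain ⟨_, hx0c, hx0S⟩ := (hmem x0).1 hx0T
    have hcop : IsCoprime (q : ℤ) (F.L n i c * F.L n j c) := by
      unfold TC.Cq at hc
      exact (mem_filter.1 hc).2.2
    have hcop1 : IsCoprime (q : ℤ) (F.L n i c) := IsCoprime.of_mul_right_left hcop
    -- no prime of `S` divides `q`
    have hSq : ∀ p ∈ S, ¬ p ∣ q := by
      intro p hp hpq
      have h1 : (p : ℤ) ∣ F.L n i x0 := hx0S p hp
      have h2 : (q : ℤ) ∣ (c : ℤ) - x0 := (Nat.modEq_iff_dvd).1 hx0c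
      have h3 : (p : ℤ) ∣ F.L n i c := by
        have h4 : F.L n i c = F.L n i x0 + F.u i * ((c : ℤ) - x0) := by
          unfold Fam.L
          ring
        rw [h4]
        exact dvd_add h1 (Dvd.dvd.mul_left (dvd_trans (by exact_mod_cast hpq) h2) _)
      have h5 : IsUnit (p : ℤ) := hcop1.isUnit_of_dvd' (by exact_mod_cast hpq) h3
      have h6 := (Nat.prime_iff_prime_int.1 (hS p hp))
      exact h6.not_isUnit h5
    -- no prime of `S` divides `u`
    have hSu : ∀ p ∈ S, ¬ (p : ℤ) ∣ F.u i := by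
      intro p hp hpu
      have h1 : (p : ℤ) ∣ F.L n i x0 := hx0S p hp
      have h2 : (p : ℤ) ∣ F.v n i := by
        have h3 : F.v n i = F.L n i x0 - F.u i * x0 := by
          unfold Fam.L
          ring
        rw [h3]
        exact dvd_sub h1 (Dvd.dvd.mul_right hpu _)
      have h5 : IsUnit (p : ℤ) := (F.huv n hn i).isUnit_of_dvd' hpu h2
      exact (Nat.prime_iff_prime_int.1 (hS p hp)).not_isUnit h5
    have hcopqS : Nat.Coprime q (∏ p ∈ S, p) := by
      apply Nat.Coprime.prod_right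
      intro p hp
      exact ((Nat.Prime.coprime_iff_not_dvd (hS p hp)).2 (hSq p hp)).symm
    have hm0 : 0 < q * ∏ p ∈ S, p := Nat.mul_pos (by omega) hS0
    have hdiv : ∀ x ∈ T, x0 ≤ x ∧ q * ∏ p ∈ S, p ∣ x - x0 := by
      intro x hx
      have hle : x0 ≤ x := T.min'_le x hx
      obtain ⟨_, hxc, hxS⟩ := (hmem x).1 hx
      refine ⟨hle, ?_⟩
      apply hcopqS.mul_dvd_of_dvd_of_dvd
      · exact (Nat.modEq_iff_dvd' hle).1 (hx0c.trans hxc.symm)
      · apply Finset.prod_primes_dvd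
        · intro p hp
          exact (hS p hp).prime
        · intro p hp
          have h1 := hxS p hp
          have h2 := hx0S p hp
          have h3 : (p : ℤ) ∣ F.u i * ((x : ℤ) - x0) := by
            have h4 : F.u i * ((x : ℤ) - x0) = F.L n i x - F.L n i x0 := by
              unfold Fam.L
              ring
            rw [h4]
            exact dvd_sub h1 h2
          have h5 : (p : ℤ) ∣ (x : ℤ) - x0 :=
            ((Nat.prime_iff_prime_int.1 (hS p hp)).dvd_or_dvd h3).resolve_left (hSu p hp)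
          have h6 : ((x - x0 : ℕ) : ℤ) = (x : ℤ) - x0 := Nat.cast_sub hle
          rw [← h6] at h5
          exact_mod_cast h5
    have hcard : T.card ≤ n / (q * ∏ p ∈ S, p) + 1 := by
      have h1 : T.card ≤ (range (n / (q * ∏ p ∈ S, p) + 1)).card := by
        apply Finset.card_le_card_of_injOn (fun x => (x - x0) / (q * ∏ p ∈ S, p))
        · intro x hx
          have hx' := Finset.mem_coe.1 hx
          have h2 := ((hmem x).1 hx').1.2
          rw [Finset.coe_range, Set.mem_Iio]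
          have h3 : (x - x0) / (q * ∏ p ∈ S, p) ≤ n / (q * ∏ p ∈ S, p) :=
            Nat.div_le_div_right (by omega)
          exact Nat.lt_succ_of_le h3
        · intro x hx y hy hxy
          obtain ⟨h1, h2⟩ := hdiv x (Finset.mem_coe.1 hx)
          obtain ⟨h3, h4⟩ := hdiv y (Finset.mem_coe.1 hy)
          simp only at hxy
          have h5 := Nat.div_mul_cancel h2
          have h6 := Nat.div_mul_cancel h4
          rw [hxy, h6] at h5
          omega
      rwa [card_range] at h1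
    have h1 : (T.card : ℝ) ≤ ((n / (q * ∏ p ∈ S, p) : ℕ) : ℝ) + 1 := by exact_mod_cast hcard
    have h2 : ((n / (q * ∏ p ∈ S, p) : ℕ) : ℝ) ≤ (n : ℝ) / ((q * ∏ p ∈ S, p : ℕ) : ℝ) :=
      Nat.cast_div_le
    have h3 : (n : ℝ) / ((q * ∏ p ∈ S, p : ℕ) : ℝ) = (n : ℝ) / q * (1 / ((∏ p ∈ S, p : ℕ) : ℝ)) := by
      push_cast
      rw [div_mul_div_comm, mul_one]
    linarith

open Classical in
private lemma hl_one (F : Fam ι D) (n q w k : ℕ) (hn : F.N0 ≤ n) (hq : 1 ≤ q) (hk : Even k)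
    (i j : Option ι) (M0 : ℝ) (hM0 : 0 ≤ M0) (s : ℕ → ℝ) (hs0 : ∀ x : ℕ, 0 ≤ s x)
    (hs1 : ∀ x ∈ Ioo 0 n, s x ≤ M0) (hpos : ∀ x ∈ Ioo 0 n, s x ≠ 0 → 0 < F.L n i (x : ℕ))
    (c : ℕ) (hc : c ∈ Cq F n q i j) :
    ∑ x ∈ (Ioo 0 n).filter (fun x : ℕ => x ≡ c [MOD q]),
      |HH w k (F.L n i x).toNat - Lw w (F.L n i x).toNat| * s x ≤
    (kapD w)⁻¹ * M0 * ((n : ℝ) / q * E (fun p => 1 / (p : ℝ)) (prs w) (k + 1) +
      (((prs w).powersetCard (k + 1)).card : ℝ)) := by
  have hκ := (inv_pos.2 (hl_kap_pos w)).le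
  have hpt : ∀ x ∈ (Ioo 0 n).filter (fun x : ℕ => x ≡ c [MOD q]),
      |HH w k (F.L n i x).toNat - Lw w (F.L n i x).toNat| * s x ≤
      (kapD w)⁻¹ * M0 * ∑ S ∈ (prs w).powersetCard (k + 1),
        (if ∀ p ∈ S, (p : ℤ) ∣ F.L n i x then (1 : ℝ) else 0) := by
    intro x hx
    have hx1 := (mem_filter.1 hx).1
    have hsum0 : 0 ≤ ∑ S ∈ (prs w).powersetCard (k + 1),
        (if ∀ p ∈ S, (p : ℤ) ∣ F.L n i x then (1 : ℝ) else 0) :=
      Finset.sum_nonneg fun S _ => by split <;> norm_num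
    by_cases h0 : s x = 0
    · rw [h0, mul_zero]
      positivity
    · have hL := hpos x hx1 h0
      have h1 := hl_diff w k (F.L n i x).toNat hk
      have hE : E (dv (F.L n i x).toNat) (prs w) (k + 1) ≤
          ∑ S ∈ (prs w).powersetCard (k + 1),
            (if ∀ p ∈ S, (p : ℤ) ∣ F.L n i x then (1 : ℝ) else 0) := by
        unfold Lib.MP_0da313_nt.E
        refine Finset.sum_le_sum fun S _ => ?_
        by_cases h : ∀ p ∈ S, (p : ℤ) ∣ F.L n i x
        · rw [if_pos h]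
          exact Finset.prod_le_one (fun p _ => (hl_dv01 _ p).1) (fun p _ => (hl_dv01 _ p).2)
        · rw [if_neg h]
          push Not at h
          obtain ⟨p, hp, hpn⟩ := h
          rw [Finset.prod_eq_zero hp]
          unfold GC.dv
          rw [if_neg]
          intro h2
          apply hpn
          have h3 : ((F.L n i x).toNat : ℤ) = F.L n i x := Int.toNat_of_nonneg hL.le
          rw [← h3]
          exact_mod_cast h2
      calc |HH w k (F.L n i x).toNat - Lw w (F.L n i x).toNat| * s x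
          ≤ ((kapD w)⁻¹ * ∑ S ∈ (prs w).powersetCard (k + 1),
            (if ∀ p ∈ S, (p : ℤ) ∣ F.L n i x then (1 : ℝ) else 0)) * M0 := by
            apply mul_le_mul (h1.trans (mul_le_mul_of_nonneg_left hE hκ)) (hs1 x hx1) (hs0 x)
            positivity
        _ = _ := by ring
  refine (Finset.sum_le_sum hpt).trans ?_
  rw [← Finset.mul_sum, Finset.sum_comm]
  apply mul_le_mul_of_nonneg_left _ (by positivity)
  have h2 : ∀ S ∈ (prs w).powersetCard (k + 1),
      ∑ x ∈ (Ioo 0 n).filter (fun x : ℕ => x ≡ c [MOD q]),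
        (if ∀ p ∈ S, (p : ℤ) ∣ F.L n i x then (1 : ℝ) else 0) ≤
      (n : ℝ) / q * (∏ p ∈ S, (1 / (p : ℝ))) + 1 := by
    intro S hS
    have hSp : ∀ p ∈ S, p.Prime := fun p hp =>
      (hl_mem_prs.1 ((Finset.mem_powersetCard.1 hS).1 hp)).1
    have h3 := hl_cnt F n q hn hq i j c hc S hSp
    rw [← Finset.sum_filter, Finset.sum_const, nsmul_eq_mul, mul_one, Finset.filter_filter]
    refine h3.trans (le_of_eq ?_)
    rw [Finset.prod_div_distrib, Finset.prod_const_one]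
    push_cast
    rfl
  refine (Finset.sum_le_sum h2).trans (le_of_eq ?_)
  rw [Finset.sum_add_distrib, ← Finset.mul_sum, Finset.sum_const, nsmul_eq_mul, mul_one]
  rfl

private lemma hl_card (w k : ℕ) : (((prs w).powersetCard k).card : ℝ) ≤ (w : ℝ) ^ k := by
  rw [Finset.card_powersetCard]
  have h1 : (prs w).card ≤ w := by
    have h2 : (prs w).card ≤ (Icc 1 w).card := Finset.card_le_card (Finset.filter_subset _ _)
    simpa using h2
  have h3 : (prs w).card.choose k ≤ w ^ k :=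
    (Nat.choose_le_pow _ _).trans (Nat.pow_le_pow_left h1 k)
  exact_mod_cast h3

private lemma hl_tpos (F : Fam ι D) (l : Option ι) : 0 < F.t l := by
  have h1 : 0 < |(F.u l : ℝ)| := abs_pos.2 (by exact_mod_cast F.hu l)
  have h2 := mul_pos h1 F.hhw
  have h3 : 1000 * (|(F.u l : ℝ)| * F.hw) ≤ F.t l := F.hth l
  linarith

private lemma hl_thP (m : ℕ) : 0 ≤ thP m ∧ (1 ≤ m → thP m ≤ Real.log m) := by
  unfold CH.thP
  constructor
  · split
    · rename_i h
      exact Real.log_nonneg (by exact_mod_cast h.one_lt.le)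
    · exact le_rfl
  · intro h
    split
    · exact le_rfl
    · exact Real.log_nonneg (by exact_mod_cast h)

private lemma hl_sq (F : Fam ι D) (N n : ℕ) (hN : 1 ≤ N) (hn : n ≤ 2 * N) (j : Option ι)
    (M0 : ℝ) (hM0 : 0 ≤ M0)
    (hM : Real.log ((2 * |(F.u j : ℝ)| + 2 * |(F.b j : ℝ)| + |(F.c j : ℝ)| + 1) * N) ≤ M0)
    (x : ℕ) (hx : x < n) :
    0 ≤ sq F N j (F.L n j x).toNat ∧ sq F N j (F.L n j x).toNat ≤ M0 := by
  set m := (F.L n j x).toNat with hm
  have hw0 : 0 ≤ wd (la4 F j) (F.t j * N) m := tri_nonneg _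
  have hw1 : wd (la4 F j) (F.t j * N) m ≤ 1 := tri_le_one _
  have ht0 := (hl_thP m).1
  unfold TC.sq
  refine ⟨mul_nonneg ht0 hw0, (mul_le_of_le_one_right ht0 hw1).trans ?_⟩
  rcases Nat.eq_zero_or_pos m with h0 | h1
  · rw [h0]
    unfold CH.thP
    rw [if_neg Nat.not_prime_zero]
    exact hM0
  · refine ((hl_thP m).2 h1).trans (le_trans ?_ hM)
    apply Real.log_le_log (by exact_mod_cast h1)
    have h2 : (m : ℤ) = F.L n j x := Int.toNat_of_nonneg (by
      by_contra h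
      rw [hm, Int.toNat_of_nonpos (by omega)] at h1
      omega)
    have h3 : (m : ℝ) = (F.u j : ℝ) * x + ((F.b j : ℝ) * n + F.c j) := by
      have h4 : (m : ℝ) = ((m : ℤ) : ℝ) := by norm_cast
      rw [h4, h2]
      unfold Fam.L Fam.v
      push_cast
      ring
    have hxN : (x : ℝ) ≤ 2 * N := by exact_mod_cast (by omega : x ≤ 2 * N)
    have hnN : (n : ℝ) ≤ 2 * N := by exact_mod_cast hn
    have hN1 : (1 : ℝ) ≤ N := by exact_mod_cast hN
    have e1 : (F.u j : ℝ) * x ≤ |(F.u j : ℝ)| * (2 * N) :=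
      (mul_le_mul_of_nonneg_right (le_abs_self _) (Nat.cast_nonneg x)).trans
        (mul_le_mul_of_nonneg_left hxN (abs_nonneg _))
    have e2 : (F.b j : ℝ) * n ≤ |(F.b j : ℝ)| * (2 * N) :=
      (mul_le_mul_of_nonneg_right (le_abs_self _) (Nat.cast_nonneg n)).trans
        (mul_le_mul_of_nonneg_left hnN (abs_nonneg _))
    have e3 : (F.c j : ℝ) ≤ |(F.c j : ℝ)| * N :=
      (le_abs_self _).trans (le_mul_of_one_le_right (abs_nonneg _) hN1)
    rw [h3]
    nlinarith

private lemma hl_pow_log (m : ℕ) (C : ℝ) (hC : 0 < C) :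
    ∀ᶠ N : ℕ in atTop, C * Real.log N ^ m ≤ (N : ℝ) ^ (1 / 2 : ℝ) := by
  have h1 := (isLittleO_log_rpow_rpow_atTop (m : ℝ) (by norm_num : (0 : ℝ) < 1 / 2)).bound
    (by positivity : (0 : ℝ) < 1 / C)
  have h2 := (tendsto_natCast_atTop_atTop (R := ℝ)).eventually h1
  filter_upwards [h2, eventually_ge_atTop 1] with N h3 h4
  have hN : (1 : ℝ) ≤ N := by exact_mod_cast h4
  have hL : 0 ≤ Real.log N := Real.log_nonneg hN
  rw [Real.rpow_natCast, Real.norm_of_nonneg (pow_nonneg hL m),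
    Real.norm_of_nonneg (Real.rpow_nonneg (by linarith) _)] at h3
  rw [one_div, inv_mul_eq_div, le_div_iff₀ hC] at h3
  linarith

private lemma hl_log_X (t : ℝ) (ht : 0 < t) : ∀ᶠ N : ℕ in atTop,
    1 / 2 * Real.log N ≤ Real.log (t * N) ∧ Real.log (t * N) ≤ 2 * Real.log N ∧
    t * N ≤ (N : ℝ) ^ 2 ∧ 1 ≤ t * N := by
  have hcast : Tendsto (fun n : ℕ => (n : ℝ)) atTop atTop := tendsto_natCast_atTop_atTop
  filter_upwards [hcast.eventually (eventually_ge_atTop t),
    hcast.eventually (eventually_ge_atTop (1 / t ^ 2)),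
    hcast.eventually (eventually_ge_atTop (1 / t)), eventually_ge_atTop 1] with N h1 h2 h2' h3
  have hN : (1 : ℝ) ≤ N := by exact_mod_cast h3
  have hN0 : (0 : ℝ) < N := by linarith
  have h4 : t * N ≤ (N : ℝ) ^ 2 := by nlinarith
  have h6 : 1 ≤ t ^ 2 * N := by
    rw [div_le_iff₀ (by positivity)] at h2
    linarith
  have h5 : (N : ℝ) ≤ (t * N) ^ 2 := by nlinarith
  have h7 : 1 ≤ t * N := by
    rw [div_le_iff₀ ht] at h2'
    linarith
  refine ⟨?_, ?_, h4, h7⟩
  · have h8 := Real.log_le_log hN0 h5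
    rw [Real.log_pow] at h8
    push_cast at h8
    linarith
  · have h8 := Real.log_le_log (by positivity) h4
    rw [Real.log_pow] at h8
    push_cast at h8
    linarith

theorem p_hl : S_hl := by
  intro hloc hcq htl ι _ _ D F i j κ hB A b
  obtain ⟨K1, hK1⟩ := htl 1 le_rfl
  set K' : ℕ := A + b * D + 4 with hK'
  refine ⟨max (2 * K') K1, ?_⟩
  have ht := hl_tpos F i
  set C2 : ℝ := 2 * |(F.u j : ℝ)| + 2 * |(F.b j : ℝ)| + |(F.c j : ℝ)| + 1 with hC2
  have hC2pos : 0 < C2 := by positivity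
  have hcast : Tendsto (fun n : ℕ => (n : ℝ)) atTop atTop := tendsto_natCast_atTop_atTop
  have hXt : Tendsto (fun N : ℕ => F.t i * (N : ℝ)) atTop atTop := hcast.const_mul_atTop ht
  have hlogt : Tendsto (fun N : ℕ => Real.log N) atTop atTop := Real.tendsto_log_atTop.comp hcast
  set C3 : ℝ := 4000 * 2 ^ (b * D) * (4 * 2 ^ K') with hC3
  set C4 : ℝ := 8000 * 2 ^ (b * D) with hC4
  filter_upwards [hXt.eventually hK1, hloc ι D F κ hB, eventually_ge_atTop (F.N0 + 1),
    hl_log_X (F.t i) ht, hl_log_X C2 hC2pos, hlogt.eventually (eventually_ge_atTop (2 * C3 + 3)),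
    hl_pow_log (2 + b * D + A) C4 (by positivity)] with N h1 h2 h3 h4 h5 h6 h7 w k hPm n hn
  obtain ⟨hX1, hX2, hX3, hX4⟩ := h4
  set X : ℝ := F.t i * N with hX
  set L : ℝ := Real.log N with hL
  have hC3pos : 1 ≤ C3 := by
    have e1 : (1 : ℝ) ≤ 2 ^ (b * D) := one_le_pow₀ (by norm_num)
    have e2 : (1 : ℝ) ≤ 2 ^ K' := one_le_pow₀ (by norm_num)
    rw [hC3]
    nlinarith
  have hL3 : 3 ≤ L := by
    have : 2 * C3 + 3 ≤ L := h6
    linarith
  have hN1 : 1 ≤ N := by omega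
  have hN1' : (1 : ℝ) ≤ N := by exact_mod_cast hN1
  have hLX1 : 1 ≤ Real.log X := by linarith
  have hLLX : 0 ≤ Real.log (Real.log X) := Real.log_nonneg hLX1
  have hκ1 : 1 ≤ κ := hB.1
  obtain ⟨hn1, hn2⟩ := mem_Ioc.1 hn
  have hn3 : n ≤ 2 * N := by
    have : N / κ ≤ N := Nat.div_le_self _ _
    omega
  have hn0 : F.N0 ≤ n := by omega
  -- the parameters
  obtain ⟨hPw, hPk, hPe, hPwk⟩ := hPm
  have hmax1 : (2 * K' : ℕ) ≤ max (2 * K') K1 := le_max_left _ _
  have hmax2 : K1 ≤ max (2 * K') K1 := le_max_right _ _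
  have hPm1 : Pm X (1 / 50) K1 w k := by
    refine ⟨le_trans (pow_le_pow_right₀ hLX1 hmax2) hPw, le_trans ?_ hPk, hPe, hPwk.trans ?_⟩
    · exact mul_le_mul_of_nonneg_right (by exact_mod_cast hmax2) hLLX
    · exact Real.rpow_le_rpow_of_exponent_le hX4 (by norm_num)
  obtain ⟨ht1, _, ht3, _⟩ := h1 w k hPm1
  have hκ0 := inv_pos.2 (hl_kap_pos w)
  -- the tail of the sieve
  set e : ℝ := E (fun p => 1 / (p : ℝ)) (prs w) (k + 1) with he
  have he0 : 0 ≤ e := Lib.MP_0da313_nt.E_nonneg (fun p _ => by positivity) _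
  have hρ : ∀ p ∈ prs w, 0 ≤ (fun p : ℕ => 1 / (p : ℝ)) p ∧
      (fun p : ℕ => 1 / (p : ℝ)) p ≤ ((1 : ℕ) : ℝ) / p := fun p _ =>
    ⟨by positivity, by simp⟩
  have he1 : e ≤ 2 * Real.exp (-(k : ℝ) / 2) := by
    have e1 := ht1 (fun p => 1 / (p : ℝ)) (prs w) k (Finset.Subset.refl _) hρ
      (by linarith [Nat.cast_nonneg (α := ℝ) k])
    have e2 := ht1 (fun p => 1 / (p : ℝ)) (prs w) (k + 1) (Finset.Subset.refl _) hρ
      (by push_cast; linarith [Nat.cast_nonneg (α := ℝ) k])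
    have e3 : U (fun p => 1 / (p : ℝ)) (prs w) (k + 1) =
        U (fun p => 1 / (p : ℝ)) (prs w) k - e := by
      rw [he]
      unfold Lib.MP_0da313_nt.U
      rw [Finset.sum_range_succ _ (k + 1), pow_succ, hPe.neg_one_pow]
      ring
    have e4 := (abs_le.1 e1).2
    have e5 := (abs_le.1 e2).1
    linarith
  have hexp : Real.exp (-(k : ℝ) / 2) ≤ 2 ^ K' / L ^ K' := by
    have e1 : (2 * K' : ℝ) * Real.log (Real.log X) ≤ k := by
      refine le_trans (mul_le_mul_of_nonneg_right ?_ hLLX) hPk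
      exact_mod_cast hmax1
    have e2 : Real.exp (-(k : ℝ) / 2) ≤ Real.exp (-(K' * Real.log (Real.log X))) := by
      apply Real.exp_le_exp.2
      linarith
    have e3 : Real.exp (-(K' * Real.log (Real.log X))) = (Real.log X ^ K')⁻¹ := by
      rw [Real.exp_neg, Real.exp_nat_mul, Real.exp_log (by linarith)]
    rw [e3] at e2
    have e4 : (1 / 2 * L) ^ K' ≤ Real.log X ^ K' := pow_le_pow_left₀ (by linarith) hX1 _
    have e5 : (Real.log X ^ K')⁻¹ ≤ ((1 / 2 * L) ^ K')⁻¹ :=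
      inv_anti₀ (by positivity) e4
    refine e2.trans (e5.trans (le_of_eq ?_))
    rw [mul_pow, mul_inv, div_eq_mul_inv (2 ^ K' : ℝ)]
    congr 1
    rw [← inv_pow]
    norm_num
  -- the number of the sets
  set P : ℝ := (((prs w).powersetCard (k + 1)).card : ℝ) with hP
  have hP0 : 0 ≤ P := Nat.cast_nonneg _
  have hP1 : P ≤ (N : ℝ) ^ (1 / 50 : ℝ) := by
    refine (hl_card w (k + 1)).trans (hPwk.trans ?_)
    have e1 : X ^ (1 / 100 : ℝ) ≤ ((N : ℝ) ^ 2) ^ (1 / 100 : ℝ) :=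
      Real.rpow_le_rpow (by linarith) hX3 (by norm_num)
    refine e1.trans (le_of_eq ?_)
    rw [← Real.rpow_natCast, ← Real.rpow_mul (by linarith)]
    norm_num
  set Q : ℕ := ⌊(N : ℝ) ^ (1 / 1000 : ℝ)⌋₊ with hQ
  have hQ1 : 1 ≤ Q := by
    apply Nat.le_floor
    push_cast
    exact Real.one_le_rpow hN1' (by norm_num)
  have hQ2 : (Q : ℝ) ≤ (N : ℝ) ^ (1 / 1000 : ℝ) := Nat.floor_le (by positivity)
  have hQ1' : (1 : ℝ) ≤ Q := by exact_mod_cast hQ1
  have hQ3 : Real.log Q ≤ L := by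
    apply Real.log_le_log (by linarith)
    refine hQ2.trans ?_
    calc (N : ℝ) ^ (1 / 1000 : ℝ) ≤ (N : ℝ) ^ (1 : ℝ) :=
          Real.rpow_le_rpow_of_exponent_le hN1' (by norm_num)
      _ = N := Real.rpow_one _
  have hM0 : 0 ≤ 2 * L := by linarith
  have hMlog : Real.log (C2 * N) ≤ 2 * L := h5.2.1
  -- the sum over one modulus
  have hq : ∀ q ∈ (Icc 1 Q).filter Squarefree, (b : ℝ) ^ q.primeFactors.card *
      ∑ c ∈ Cq F n q i j, ∑ x ∈ (Ioo 0 n).filter (fun x : ℕ => x ≡ c [MOD q]),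
        |HH w k (F.L n i x).toNat - Lw w (F.L n i x).toNat| * sq F N j (F.L n j x).toNat ≤
      (kapD w)⁻¹ * (2 * L) * (n * e + Q * P) * (((b * D : ℕ) : ℝ) ^ q.primeFactors.card / q) := by
    intro q hq
    obtain ⟨hq1, hq2⟩ := Finset.mem_filter.1 hq
    obtain ⟨hq3, hq4⟩ := Finset.mem_Icc.1 hq1
    have hq' : (0 : ℝ) < q := by exact_mod_cast hq3
    have hqQ : (q : ℝ) ≤ Q := by exact_mod_cast hq4
    have e1 : ∀ c ∈ Cq F n q i j, ∑ x ∈ (Ioo 0 n).filter (fun x : ℕ => x ≡ c [MOD q]),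
        |HH w k (F.L n i x).toNat - Lw w (F.L n i x).toNat| * sq F N j (F.L n j x).toNat ≤
        (kapD w)⁻¹ * (2 * L) * ((n : ℝ) / q * e + P) := by
      intro c hc
      refine hl_one F n q w k hn0 hq3 hPe i j (2 * L) hM0
        (fun x : ℕ => if x ∈ Ioo 0 n then sq F N j (F.L n j x).toNat else 0) ?_ ?_ ?_ c hc |>.trans'
          (le_of_eq ?_)
      · intro x
        by_cases hx : x ∈ Ioo 0 n
        · simp only [hx, if_true]
          exact (hl_sq F N n hN1 hn3 j (2 * L) hM0 hMlog x (mem_Ioo.1 hx).2).1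
        · simp only [hx, if_false]
          exact le_rfl
      · intro x hx
        simp only [hx, if_true]
        exact (hl_sq F N n hN1 hn3 j (2 * L) hM0 hMlog x (mem_Ioo.1 hx).2).2
      · intro x hx hs
        simp only [hx, if_true] at hs
        exact (h2 n hn i j x hs).2.2.1
      · refine Finset.sum_congr rfl fun x hx => ?_
        simp only [(mem_filter.1 hx).1, if_true]
    have e2 : ∑ c ∈ Cq F n q i j, ∑ x ∈ (Ioo 0 n).filter (fun x : ℕ => x ≡ c [MOD q]),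
        |HH w k (F.L n i x).toNat - Lw w (F.L n i x).toNat| * sq F N j (F.L n j x).toNat ≤
        (D : ℝ) ^ q.primeFactors.card * ((kapD w)⁻¹ * (2 * L) * ((n : ℝ) / q * e + P)) := by
      refine (Finset.sum_le_sum e1).trans ?_
      rw [Finset.sum_const, nsmul_eq_mul]
      apply mul_le_mul_of_nonneg_right (hcq ι D F n q hn0 hq2 i j)
      positivity
    have e3 : (n : ℝ) / q * e + P ≤ (n * e + Q * P) / q := by
      rw [add_div]
      have e4 : P ≤ Q * P / q := by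
        rw [le_div_iff₀ hq']
        nlinarith
      have e5 : (n : ℝ) / q * e = n * e / q := by ring
      linarith
    calc (b : ℝ) ^ q.primeFactors.card * ∑ c ∈ Cq F n q i j, _
        ≤ (b : ℝ) ^ q.primeFactors.card * ((D : ℝ) ^ q.primeFactors.card *
            ((kapD w)⁻¹ * (2 * L) * ((n : ℝ) / q * e + P))) :=
          mul_le_mul_of_nonneg_left e2 (by positivity)
      _ ≤ (b : ℝ) ^ q.primeFactors.card * ((D : ℝ) ^ q.primeFactors.card *
            ((kapD w)⁻¹ * (2 * L) * ((n * e + Q * P) / q))) := by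
          gcongr
      _ = _ := by
          push_cast
          rw [mul_pow]
          ring
  refine (Finset.sum_le_sum hq).trans ?_
  rw [← Finset.mul_sum]
  have hom := sum_omega_le (b * D) Q hQ1
  have hom2 : (1 + Real.log Q) ^ (b * D) ≤ (2 * L) ^ (b * D) := by
    apply pow_le_pow_left₀
    · linarith [Real.log_nonneg hQ1']
    · linarith
  have hnN : (n : ℝ) ≤ 2 * N := by exact_mod_cast hn3
  have hne : (n : ℝ) * e ≤ 4 * 2 ^ K' * N / L ^ K' := by
    calc (n : ℝ) * e ≤ (2 * N) * (2 * (2 ^ K' / L ^ K')) :=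
          mul_le_mul hnN (he1.trans (by linarith)) he0 (by positivity)
      _ = _ := by ring
  have hQP : (Q : ℝ) * P ≤ (N : ℝ) ^ (1 / 2 : ℝ) := by
    calc (Q : ℝ) * P ≤ (N : ℝ) ^ (1 / 1000 : ℝ) * (N : ℝ) ^ (1 / 50 : ℝ) :=
          mul_le_mul hQ2 hP1 hP0 (by positivity)
      _ = (N : ℝ) ^ (1 / 1000 + 1 / 50 : ℝ) := (Real.rpow_add (by linarith) _ _).symm
      _ ≤ (N : ℝ) ^ (1 / 2 : ℝ) := Real.rpow_le_rpow_of_exponent_le hN1' (by norm_num)
  have hκL : (kapD w)⁻¹ ≤ 2000 * L := ht3.trans (by linarith)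
  have hLK : 0 < L ^ K' := by positivity
  calc (kapD w)⁻¹ * (2 * L) * (n * e + Q * P) *
        ∑ q ∈ (Icc 1 Q).filter Squarefree, (((b * D : ℕ) : ℝ) ^ q.primeFactors.card / q)
      ≤ (2000 * L) * (2 * L) * (4 * 2 ^ K' * N / L ^ K' + (N : ℝ) ^ (1 / 2 : ℝ)) *
        (2 * L) ^ (b * D) := by
        apply mul_le_mul _ (hom.trans hom2) (Finset.sum_nonneg fun q _ => by positivity)
          (by positivity)
        apply mul_le_mul _ (add_le_add hne hQP) (by positivity) (by positivity)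
        exact mul_le_mul_of_nonneg_right hκL hM0
    _ = C3 * L ^ (2 + b * D) / L ^ K' * N + 1 / 2 * (C4 * L ^ (2 + b * D)) *
        (N : ℝ) ^ (1 / 2 : ℝ) := by
        rw [hC3, hC4, mul_pow, pow_add]
        field_simp
        ring
    _ ≤ 1 / 2 * (N / L ^ A) + 1 / 2 * (N / L ^ A) := by
        apply add_le_add
        · have e1 : L ^ K' = L ^ A * L ^ (2 + b * D) * L ^ 2 := by
            rw [hK', ← pow_add, ← pow_add]
            congr 1
            omega
          have e2 : C3 * L ^ (2 + b * D) / L ^ K' * N = C3 / L ^ 2 * (N / L ^ A) := by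
            rw [e1]
            field_simp
          rw [e2]
          apply mul_le_mul_of_nonneg_right _ (by positivity)
          rw [div_le_iff₀ (by positivity)]
          have h8 : 2 * C3 + 3 ≤ L := h6
          nlinarith
        · rw [mul_assoc]
          apply mul_le_mul_of_nonneg_left _ (by norm_num)
          rw [le_div_iff₀ (by positivity)]
          have e1 : C4 * L ^ (2 + b * D) * (N : ℝ) ^ (1 / 2 : ℝ) * L ^ A =
              C4 * L ^ (2 + b * D + A) * (N : ℝ) ^ (1 / 2 : ℝ) := by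
            rw [pow_add L (2 + b * D) A]
            ring
          rw [e1]
          calc C4 * L ^ (2 + b * D + A) * (N : ℝ) ^ (1 / 2 : ℝ)
              ≤ (N : ℝ) ^ (1 / 2 : ℝ) * (N : ℝ) ^ (1 / 2 : ℝ) :=
                mul_le_mul_of_nonneg_right h7 (by positivity)
            _ = (N : ℝ) ^ (1 / 2 + 1 / 2 : ℝ) := (Real.rpow_add (by linarith) _ _).symm
            _ = N := by norm_num
    _ = N / L ^ A := by ring

end Pool.Agent.TC.E
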