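import Pool.Agent.Lib.MP_0da313_nt.TC.E.M

set_option autoImplicit false

/-!
[TE loc]: location of the points.
-/

namespace Pool.Agent.TC.E

open Finset Filter
open Pool.Agent.CH (thP)
open Pool.Agent.CM (wd Fam)
open Pool.Agent.TC (la4 sq Blk)

theorem p_loc : S_loc := by
  intro hlob ι _ _ D F κ hB
  have hU : ∀ l, 0 < |(F.u l : ℝ)| * F.hw := fun l =>
    mul_pos (abs_pos.mpr (by exact_mod_cast F.hu l)) F.hhw
  have hth : ∀ l, 1000 * (|(F.u l : ℝ)| * F.hw) ≤ F.t l := fun l => F.hth l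
  have ht : ∀ l, 0 < F.t l := fun l => by
    have := hU l
    have := hth l
    linarith
  filter_upwards [hlob ι D F κ hB, Filter.eventually_gt_atTop 0] with N hN hN0 n hn i j x hsq
  have hNR : (0 : ℝ) < N := by exact_mod_cast hN0
  have h1 : thP (F.L n j x).toNat ≠ 0 ∧ wd (la4 F j) (F.t j * N) (F.L n j x).toNat ≠ 0 := by
    unfold sq at hsq
    exact mul_ne_zero_iff.1 hsq
  have hL : 0 < F.L n j x := by
    by_contra hcon
    apply h1.1
    rw [Int.toNat_of_nonpos (not_lt.1 hcon)]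
    unfold thP
    rw [if_neg Nat.not_prime_zero]
  obtain ⟨_, _, hx0, hxn, hall⟩ := hN n hn x j hL h1.2
  have hi := hall i
  refine ⟨hx0, hxn, ?_, hi⟩
  have hTN : 0 < F.t i * N := mul_pos (ht i) hNR
  have h2 := (abs_le.1 hi).1
  have h3 : (99 : ℝ) / 100 ≤ (F.L n i x : ℝ) / (F.t i * N) := by linarith
  rw [le_div_iff₀ hTN] at h3
  have h4 : (0 : ℝ) < F.L n i x := by linarith
  exact_mod_cast h4

end Pool.Agent.TC.E
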