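import Pool.Agent.Lib.MP_0da313_nt.TC.E.M

set_option autoImplicit false

/-!
Project TC, section E, piece ms: the mean square.
-/

namespace Pool.Agent.TC.E

open Finset Filter Polynomial
open Pool.Agent.CM (wd Fam)
open Pool.Agent.TC (Lw wN la4 sq Cq Er ErS Per Blk)
open Pool.Agent.GC (HH tz ES Pm prs dv)

private lemma te_ms_t_pos {ι : Type} [Fintype ι] [DecidableEq ι] {D : ℕ} (F : Fam ι D)
    (l : Option ι) : 0 < F.t l := by
  have h1 := F.hth l
  have h2 : 0 < |(F.u l : ℝ)| := abs_pos.2 (by exact_mod_cast F.hu l)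
  have h3 := F.hhw
  have h4 : 0 < |(F.u l : ℝ)| * F.hw := mul_pos h2 h3
  have e : F.t l = F.u l * F.xi + F.b l := rfl
  rw [e]
  linarith

private lemma te_ms_fin {N t C S n LN LX : ℝ} {A : ℕ} (hN : 0 < N) (ht : 0 < t) (hC : 0 ≤ C)
    (hLN : 1 ≤ LN) (hLX : LN / 2 ≤ LX) (hbig : C * t * 2 ^ (2 * A + 3) ≤ LN ^ 2)
    (hn : n * (N / LN ^ A) ≤ S) (hS : S ≤ C * (N * LN) * (t * N / LX ^ (2 * A + 3))) :
    n ≤ N / LN ^ A := by
  have hL0 : 0 < LN := by linarith
  have hX0 : 0 < LX := by linarith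
  have h1 : t * N / LX ^ (2 * A + 3) ≤ t * N / (LN / 2) ^ (2 * A + 3) := by gcongr
  have h2 : n * (N / LN ^ A) ≤ (N / LN ^ A) * (N / LN ^ A) := by
    calc n * (N / LN ^ A) ≤ C * (N * LN) * (t * N / (LN / 2) ^ (2 * A + 3)) :=
          (hn.trans hS).trans (mul_le_mul_of_nonneg_left h1 (by positivity))
      _ = (C * t * 2 ^ (2 * A + 3)) * (N * N / LN ^ (2 * A + 2)) := by
          rw [div_pow]
          field_simp
          ring
      _ ≤ LN ^ 2 * (N * N / LN ^ (2 * A + 2)) := by gcongr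
      _ = (N / LN ^ A) * (N / LN ^ A) := by
          field_simp
          ring
  exact le_of_mul_le_mul_right h2 (by positivity)

theorem p_ms : S_ms := by
  classical
  intro hbv hsgl ι _ _ D F hper i j hij κ hB A b
  obtain ⟨C, hC, hs⟩ := hsgl ι D F hper i j hij κ hB
  have hU : 1 ≤ (F.u i).natAbs := Int.natAbs_pos.2 (F.hu i)
  obtain ⟨K0, h0⟩ := hbv (2 * A + 3) (b * D) (F.u i).natAbs hU
  refine ⟨K0, ?_⟩
  have ht := te_ms_t_pos F i
  have htN : Tendsto (fun N : ℕ => F.t i * (N : ℝ)) atTop atTop :=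
    tendsto_natCast_atTop_atTop.const_mul_atTop ht
  have hlogN : Tendsto (fun N : ℕ => Real.log (N : ℝ)) atTop atTop :=
    Real.tendsto_log_atTop.comp tendsto_natCast_atTop_atTop
  have e1 : ∀ᶠ N : ℕ in atTop, C * F.t i * 2 ^ (2 * A + 3) ≤ Real.log N ^ 2 := by
    filter_upwards [hlogN.eventually_ge_atTop (C * F.t i * 2 ^ (2 * A + 3)),
      hlogN.eventually_ge_atTop 1] with N h1 h2
    nlinarith
  have e2 : ∀ᶠ N : ℕ in atTop, -Real.log (F.t i) ≤ Real.log N / 2 := by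
    filter_upwards [hlogN.eventually_ge_atTop (2 * -Real.log (F.t i))] with N h1
    linarith
  filter_upwards [htN.eventually h0, hs, e1, e2, hlogN.eventually_ge_atTop 1,
    eventually_ge_atTop 1] with N h0 hs e1 e2 e3 hN1
  intro w k hP
  obtain ⟨E, hE0, hE1, hE2⟩ := h0 w k hP
  have hN0 : (0 : ℝ) < N := by exact_mod_cast hN1
  have hN1R : (1 : ℝ) ≤ N := by exact_mod_cast hN1
  set X : ℝ := F.t i * N with hX
  have hX0 : 0 < X := mul_pos ht hN0
  have hlX : Real.log N / 2 ≤ Real.log X := by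
    rw [hX, Real.log_mul ht.ne' hN0.ne']
    linarith
  have hpow : (N : ℝ) ^ (1 / 1000 : ℝ) ≤ X ^ (1 / 100 : ℝ) := by
    rw [Real.rpow_def_of_pos hN0, Real.rpow_def_of_pos hX0]
    apply Real.exp_le_exp.2
    linarith
  set Q := (Icc 1 ⌊(N : ℝ) ^ (1 / 1000 : ℝ)⌋₊).filter Squarefree with hQ
  set S : ℕ → ℝ := fun n => ∑ q ∈ Q, (b : ℝ) ^ q.primeFactors.card *
      ∑ c ∈ Cq F n q i j,
        |∑ x ∈ (Ioo 0 n).filter (fun x : ℕ => x ≡ c [MOD q]), tm F N w k n i j x| with hSdef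
  have hS0 : ∀ n, 0 ≤ S n := fun n => Finset.sum_nonneg fun q _ =>
    mul_nonneg (by positivity) (Finset.sum_nonneg fun c _ => abs_nonneg _)
  have hmain : ∑ n ∈ Ioc N (N + N / κ), S n ≤
      C * (N * Real.log N) * (X / Real.log X ^ (2 * A + 3)) := by
    rw [hSdef, Finset.sum_comm]
    have h1 : ∀ q ∈ Q, ∑ n ∈ Ioc N (N + N / κ), (b : ℝ) ^ q.primeFactors.card *
        ∑ c ∈ Cq F n q i j,
        |∑ x ∈ (Ioo 0 n).filter (fun x : ℕ => x ≡ c [MOD q]), tm F N w k n i j x| ≤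
        C * (N * Real.log N) * (((b * D : ℕ) : ℝ) ^ q.primeFactors.card * E q) := by
      intro q hq
      rw [hQ, Finset.mem_filter, Finset.mem_Icc] at hq
      have hq1 : (q : ℝ) ≤ (N : ℝ) ^ (1 / 1000 : ℝ) :=
        (Nat.cast_le.2 hq.1.2).trans (Nat.floor_le (by positivity))
      rw [← Finset.mul_sum]
      have h2 := hs w k q (E q) hq.2 hq1 (hE0 q)
        (fun r θ hr => hE1 q r θ hq.1.1 (hq1.trans hpow) hr)
      refine (mul_le_mul_of_nonneg_left h2 (by positivity)).trans_eq ?_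
      push_cast
      rw [mul_pow]
      ring
    refine (Finset.sum_le_sum h1).trans ?_
    rw [← Finset.mul_sum]
    apply mul_le_mul_of_nonneg_left _ (by positivity)
    refine le_trans ?_ hE2
    apply Finset.sum_le_sum_of_subset_of_nonneg
    · intro q hq
      rw [hQ, Finset.mem_filter, Finset.mem_Icc] at hq
      rw [Finset.mem_filter, Finset.mem_Icc]
      exact ⟨⟨hq.1.1, hq.1.2.trans (Nat.floor_le_floor hpow)⟩, hq.2⟩
    · intro q _ _
      exact mul_nonneg (by positivity) (hE0 q)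
  have hmk : (((Ioc N (N + N / κ)).filter (fun n => N / (Real.log N) ^ A < S n)).card : ℝ) *
      (N / Real.log N ^ A) ≤ ∑ n ∈ Ioc N (N + N / κ), S n := by
    calc (((Ioc N (N + N / κ)).filter (fun n => N / (Real.log N) ^ A < S n)).card : ℝ) *
      (N / Real.log N ^ A)
        = ∑ _n ∈ (Ioc N (N + N / κ)).filter (fun n => N / (Real.log N) ^ A < S n),
            (N / Real.log N ^ A) := by
          rw [Finset.sum_const, nsmul_eq_mul]
      _ ≤ ∑ n ∈ (Ioc N (N + N / κ)).filter (fun n => N / (Real.log N) ^ A < S n), S n :=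
          Finset.sum_le_sum fun n hn => (Finset.mem_filter.1 hn).2.le
      _ ≤ ∑ n ∈ Ioc N (N + N / κ), S n :=
          Finset.sum_le_sum_of_subset_of_nonneg (Finset.filter_subset _ _) fun n _ _ => hS0 n
  exact te_ms_fin hN0 ht hC e3 hlX e1 hmk hmain

end Pool.Agent.TC.E
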