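import Pool.Agent.Lib.MP_0da313_nt.TC.E.M
import Pool.Agent.Lib.MP_0da313_nt.TC.E.M.Ms
import Pool.Agent.Lib.MP_0da313_nt.TC.E.P.EX

set_option autoImplicit false

/-!
Project TC, section E, piece sgl (a single modulus), from the general results of helper52
(`TC/E/M/Ms.lean`).
-/

namespace Pool.Agent.TC.E

open Finset Filter Polynomial
open Pool.Agent.CH (thP)
open Pool.Agent.CM (wd Fam)
open Pool.Agent.MP89da58 (tri)
open Pool.Agent.SP80 (ex)
open Pool.Agent.APP (ee)
open Pool.Agent.TC (Lw wN la4 sq Cq Er ErS Blk)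
open Pool.Agent.GC (HH tz ES Pm prs dv)

lemma te_sgl_wd_le (lam X : ℝ) (k : ℕ) : wd lam X k ≤ 1 := by
  unfold wd tri
  apply max_le (by norm_num)
  linarith [abs_nonneg (lam * Real.log (k / X))]

lemma te_sgl_sq_le {ι : Type} [Fintype ι] [DecidableEq ι] {D : ℕ} (F : Fam ι D) (N : ℕ)
    (j : Option ι) (m : ℕ) : |sq F N j m| ≤ thP m := by
  rw [abs_of_nonneg (te_EX_sq_nonneg F N j m)]
  unfold sq
  exact mul_le_of_le_one_right (M.thP_nonneg m) (te_sgl_wd_le _ _ _)

lemma te_sgl_tz_zero : tz 0 = 0 := by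
  unfold tz
  norm_num

lemma te_sgl_tz_ne {y : ℝ} (h : tz y ≠ 0) : y ≤ 2 := by
  by_contra hc
  push Not at hc
  apply h
  unfold tz
  have h1 : |y - 1| = y - 1 := abs_of_nonneg (by linarith)
  rw [h1, max_eq_left (by linarith)]
  norm_num

lemma te_sgl_cop {q a b : ℤ} (h : q ∣ a - b) : IsCoprime q a ↔ IsCoprime q b := by
  obtain ⟨t, ht⟩ := h
  have e : a = b + q * t := by linarith
  rw [e]
  exact IsCoprime.add_mul_left_right_iff

open Classical in
theorem te_sgl_cl {ι : Type} [Fintype ι] [DecidableEq ι] {D : ℕ} (F : Fam ι D)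
    (hper : TC.Per F) (i j : Option ι) (hd : F.u i * F.b j - F.u j * F.b i ≠ 0) (hcq : R_cq)
    {N N' : ℕ} (hN : F.N0 ≤ N) :
    Cl ⟨F.u i, F.b i, F.c i, F.u j, F.b j, F.c j, F.hu i, F.hu j, hd⟩ D N N'
      (fun q n => Cq F n q i j) := by
  refine ⟨?_, ?_, ?_⟩
  · intro q _ n hn n' hn' h
    rw [mem_Ioc] at hn hn'
    unfold Cq
    refine filter_congr fun c _ => ?_
    have hq : (q : ℤ) ∣ (n' : ℤ) - n := Nat.modEq_iff_dvd.1 h
    have hG := hper n n' q (by omega) (by omega) h c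
    have h1 : ((q : ℤ) ∣ (F.G n).eval (c : ℤ)) ↔ ((q : ℤ) ∣ (F.G n').eval (c : ℤ)) :=
      (dvd_iff_dvd_of_dvd_sub hG)
    have hL : ∀ l, (q : ℤ) ∣ F.L n l c - F.L n' l c := by
      intro l
      have e : F.L n l c - F.L n' l c = -(F.b l * ((n' : ℤ) - n)) := by
        unfold Fam.L Fam.v; ring
      rw [e]
      exact dvd_neg.2 (Dvd.dvd.mul_left hq _)
    have h2 : IsCoprime (q : ℤ) (F.L n i c * F.L n j c) ↔
        IsCoprime (q : ℤ) (F.L n' i c * F.L n' j c) := by
      apply te_sgl_cop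
      have e : F.L n i c * F.L n j c - F.L n' i c * F.L n' j c =
          (F.L n i c - F.L n' i c) * F.L n j c + F.L n' i c * (F.L n j c - F.L n' j c) := by ring
      rw [e]
      exact dvd_add (Dvd.dvd.mul_right (hL i) _) (Dvd.dvd.mul_left (hL j) _)
    rw [h1, h2]
  · intro q hq n hn
    rw [mem_Ioc] at hn
    exact hcq ι D F n q (by omega) hq i j
  · intro q _ n _ a ha
    unfold Cq at ha
    rw [mem_filter] at ha
    have h := ha.2.2
    exact ⟨(IsCoprime.of_mul_right_left h).symm, (IsCoprime.of_mul_right_right h).symm⟩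

theorem te_sgl (hloc : R_loc) (hcq : R_cq) : R_sgl := by
  classical
  intro ι _ _ D F hper i j hij κ hB
  have hd : F.u i * F.b j - F.u j * F.b i ≠ 0 := sub_ne_zero.2 hij
  set P : Pair := ⟨F.u i, F.b i, F.c i, F.u j, F.b j, F.c j, F.hu i, F.hu j, hd⟩ with hP
  set M0 : ℕ := 2 * ((F.u j).natAbs + (F.b j).natAbs) + (F.c j).natAbs with hM0
  have hM01 : 1 ≤ M0 := by
    have := Int.natAbs_pos.2 (F.hu j)
    omega
  have ht := te_EX_t_pos F i
  refine ⟨2 * Real.sqrt (2 * (F.u i).natAbs * M0), by positivity, ?_⟩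
  have hlogN : Tendsto (fun N : ℕ => Real.log (N : ℝ)) atTop atTop :=
    Real.tendsto_log_atTop.comp tendsto_natCast_atTop_atTop
  filter_upwards [hloc ι D F κ hB, eventually_ge_atTop (max F.N0 M0), eventually_ge_atTop 1]
    with N hloc hN hN1
  intro w k q T hsq hqN hT hE
  have hN0 : F.N0 ≤ N := (le_max_left _ _).trans hN
  have hNM : M0 ≤ N := (le_max_right _ _).trans hN
  have hNr : (1 : ℝ) ≤ N := by exact_mod_cast hN1
  have hX : 0 < F.t i * (N : ℝ) := by positivity
  have hq1 : 1 ≤ q := Nat.pos_of_ne_zero hsq.ne_zero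
  have hqM : q ≤ M0 * N := by
    have h1 : (q : ℝ) ≤ N := by
      refine hqN.trans ?_
      calc (N : ℝ) ^ (1 / 1000 : ℝ) ≤ (N : ℝ) ^ (1 : ℝ) :=
            Real.rpow_le_rpow_of_exponent_le hNr (by norm_num)
        _ = N := Real.rpow_one _
    have h2 : q ≤ N := by exact_mod_cast h1
    nlinarith
  set Ff : ℕ → ℝ := fun m => (thP m - HH w k m) * tz (m / (F.t i * N)) with hFf
  have hF0 : Ff 0 = 0 := by
    simp only [hFf]
    rw [Nat.cast_zero, zero_div, te_sgl_tz_zero, mul_zero]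
  have hFs : ∀ m, Ff m ≠ 0 → m ≤ ⌊2 * (F.t i * N)⌋₊ := by
    intro m hm
    have h1 := te_sgl_tz_ne (right_ne_zero_of_mul hm)
    apply Nat.le_floor
    rwa [div_le_iff₀ hX] at h1
  have hblk : N + N / κ ≤ 2 * N := by
    have := Nat.div_le_self N κ
    omega
  have main := M.l1_one P Ff (sq F N j) hF0 hFs (te_sgl_sq_le F N j) (N := N) (N' := N + N / κ)
    (K := D) (M := M0 * N) (q := q) (E := T) hT (fun q n => Cq F n q i j)
    (te_sgl_cl F hper i j hd hcq hN0) hq1 hsq hqM ?_ ?_ ?_ ?_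
  · have e : ∀ n c : ℕ, M.Sg P Ff (sq F N j) q n c =
        ∑ x ∈ (Ioo 0 n).filter (fun x : ℕ => x ≡ c [MOD q]), tm F N w k n i j x := fun _ _ => rfl
    simp only [e] at main
    refine main.trans ?_
    have hD0 : (0 : ℝ) ≤ (D : ℝ) ^ q.primeFactors.card * T := by positivity
    have h1 : Real.sqrt (2 * P.u0.natAbs * (M0 * N : ℕ) * (N + N / κ - N : ℕ)) ≤
        Real.sqrt (2 * (F.u i).natAbs * M0) * N := by
      have h2 : (2 * P.u0.natAbs * (M0 * N : ℕ) * (N + N / κ - N : ℕ) : ℝ) ≤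
          (2 * (F.u i).natAbs * M0) * (N : ℝ) ^ 2 := by
        have h3 : ((N + N / κ - N : ℕ) : ℝ) ≤ N := by
          have : N + N / κ - N ≤ N := by omega
          exact_mod_cast this
        have e1 : (P.u0.natAbs : ℝ) = (F.u i).natAbs := rfl
        rw [e1]
        calc (2 * (F.u i).natAbs * (M0 * N : ℕ) * (N + N / κ - N : ℕ) : ℝ)
            ≤ 2 * (F.u i).natAbs * (M0 * N : ℕ) * N :=
              mul_le_mul_of_nonneg_left h3 (by positivity)
          _ = _ := by push_cast; ring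
      refine (Real.sqrt_le_sqrt h2).trans_eq ?_
      rw [Real.sqrt_mul (by positivity), Real.sqrt_sq (by positivity)]
    have h2 : Real.log ((M0 * N : ℕ) : ℝ) ≤ 2 * Real.log N := by
      push_cast
      have h3 : (0 : ℝ) < M0 := by exact_mod_cast hM01
      rw [Real.log_mul h3.ne' (by linarith)]
      have : Real.log (M0 : ℝ) ≤ Real.log N := Real.log_le_log h3 (by exact_mod_cast hNM)
      linarith
    have h3 : 0 ≤ Real.log ((M0 * N : ℕ) : ℝ) := Real.log_natCast_nonneg _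
    calc Real.sqrt (2 * P.u0.natAbs * (M0 * N : ℕ) * (N + N / κ - N : ℕ)) *
          Real.log ((M0 * N : ℕ) : ℝ) * ((D : ℝ) ^ q.primeFactors.card * T)
        ≤ Real.sqrt (2 * (F.u i).natAbs * M0) * N * (2 * Real.log N) *
          ((D : ℝ) ^ q.primeFactors.card * T) := by
          refine mul_le_mul_of_nonneg_right ?_ hD0
          exact mul_le_mul h1 h2 h3 (by positivity)
      _ = _ := by ring
  · intro r hr α
    exact hE r α hr
  · intro n hn
    rw [mem_Ioc] at hn
    exact ⟨F.huv n (by omega) i, F.huv n (by omega) j⟩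
  · intro n hn x _ _ hx
    obtain ⟨h1, h2, _, _⟩ := hloc n hn i j x hx
    exact ⟨h1, h2⟩
  · intro n hn x hx0 hxn
    rw [mem_Ioc] at hn
    have hxN : x ≤ 2 * N := by
      have : (n : ℤ) ≤ 2 * N := by exact_mod_cast hn.2.trans hblk
      omega
    have hn2 : (n : ℤ) ≤ 2 * N := by exact_mod_cast hn.2.trans hblk
    have e : P.L1 n x = F.u j * x + (F.b j * n + F.c j) := rfl
    rw [e]
    have a1 : F.u j * x ≤ (F.u j).natAbs * (2 * N) := by
      calc F.u j * x ≤ |F.u j| * x := mul_le_mul_of_nonneg_right (le_abs_self _) hx0.le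
        _ ≤ |F.u j| * (2 * N) := mul_le_mul_of_nonneg_left hxN (abs_nonneg _)
        _ = _ := by rw [Int.natCast_natAbs]
    have a2 : F.b j * n ≤ (F.b j).natAbs * (2 * N) := by
      calc F.b j * n ≤ |F.b j| * n := mul_le_mul_of_nonneg_right (le_abs_self _) (by positivity)
        _ ≤ |F.b j| * (2 * N) := mul_le_mul_of_nonneg_left hn2 (abs_nonneg _)
        _ = _ := by rw [Int.natCast_natAbs]
    have a3 : F.c j ≤ (F.c j).natAbs * N := by
      have h1 : F.c j ≤ |F.c j| := le_abs_self _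
      have h2 : (1 : ℤ) ≤ N := by exact_mod_cast hN1
      rw [Int.natCast_natAbs]
      have h3 := abs_nonneg (F.c j)
      nlinarith
    have e2 : ((M0 * N : ℕ) : ℤ) = (F.u j).natAbs * (2 * N) + (F.b j).natAbs * (2 * N) +
        (F.c j).natAbs * N := by
      rw [hM0]; push_cast; ring
    rw [e2]
    linarith

theorem p_sgl : S_sgl := fun _ hloc hcq => te_sgl hloc hcq

end Pool.Agent.TC.E
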