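import Pool.Agent.Lib.MP_0da313_nt.TC.E.M
import Pool.Agent.Lib.MP_1e1427_nt.SP.PP

set_option autoImplicit false

/-!
Project TC, section E: the trilinear bound (Parseval).
-/

namespace Pool.Agent.TC.E

open Finset MeasureTheory
open Pool.Agent.SP80 (ex)

private theorem te_tri_ex_add (x y : ℝ) : ex (x + y) = ex x * ex y := by
  unfold ex
  rw [← Complex.exp_add]
  congr 1
  push_cast
  ring

private theorem te_tri_ex_cont : Continuous ex := by
  unfold ex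
  fun_prop

private theorem te_tri_int (m : ℤ) :
    ∫ θ in (0 : ℝ)..1, ex ((m : ℝ) * θ) = if m = 0 then 1 else 0 := by
  by_cases h : m = 0
  · subst h
    simp [ex]
  · rw [if_neg h]
    have hc : (2 * Real.pi * (m : ℂ) * Complex.I) ≠ 0 := by
      have h1 : (m : ℂ) ≠ 0 := by exact_mod_cast h
      have h2 : (Real.pi : ℂ) ≠ 0 := by exact_mod_cast Real.pi_ne_zero
      simp [h1, h2, Complex.I_ne_zero]
    have h1 : ∀ θ : ℝ, ex ((m : ℝ) * θ) = Complex.exp ((2 * Real.pi * (m : ℂ) * Complex.I) * θ) := by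
      intro θ
      unfold ex
      congr 1
      push_cast
      ring
    simp_rw [h1]
    rw [integral_exp_mul_complex hc]
    have h2 : Complex.exp ((2 * Real.pi * (m : ℂ) * Complex.I) * ((1 : ℝ) : ℂ)) = 1 := by
      rw [← Complex.exp_int_mul_two_pi_mul_I m]
      congr 1
      push_cast
      ring
    rw [h2]
    simp

private theorem te_tri_ii {f : ℝ → ℝ} (hf : Continuous f) : IntervalIntegrable f volume 0 1 :=
  hf.intervalIntegrable _ _

private theorem te_tri_cs (b c : ℝ → ℝ) (hb : Continuous b) (hc : Continuous c) :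
    ∫ θ in (0 : ℝ)..1, b θ * c θ ≤
      Real.sqrt (∫ θ in (0 : ℝ)..1, b θ ^ 2) * Real.sqrt (∫ θ in (0 : ℝ)..1, c θ ^ 2) := by
  have hb2 : 0 ≤ ∫ θ in (0 : ℝ)..1, b θ ^ 2 :=
    intervalIntegral.integral_nonneg zero_le_one fun _ _ => sq_nonneg _
  have hc2 : 0 ≤ ∫ θ in (0 : ℝ)..1, c θ ^ 2 :=
    intervalIntegral.integral_nonneg zero_le_one fun _ _ => sq_nonneg _
  have key : ∀ t : ℝ, 0 ≤ (∫ θ in (0 : ℝ)..1, c θ ^ 2) * (t * t) +
      (-2 * ∫ θ in (0 : ℝ)..1, b θ * c θ) * t + ∫ θ in (0 : ℝ)..1, b θ ^ 2 := by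
    intro t
    have h0 : 0 ≤ ∫ θ in (0 : ℝ)..1, (b θ - t * c θ) ^ 2 :=
      intervalIntegral.integral_nonneg zero_le_one fun _ _ => sq_nonneg _
    have h1 : ∀ θ, (b θ - t * c θ) ^ 2 = (t * t) * c θ ^ 2 + (-2 * t) * (b θ * c θ) + b θ ^ 2 :=
      fun θ => by ring
    simp_rw [h1] at h0
    rw [intervalIntegral.integral_add (te_tri_ii (by fun_prop)) (te_tri_ii (by fun_prop)),
      intervalIntegral.integral_add (te_tri_ii (by fun_prop)) (te_tri_ii (by fun_prop)),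
      intervalIntegral.integral_const_mul, intervalIntegral.integral_const_mul] at h0
    linarith
  have hd := discrim_le_zero key
  unfold discrim at hd
  rw [← Real.sqrt_mul hb2]
  refine Real.le_sqrt_of_sq_le ?_
  nlinarith

private theorem te_tri_par (S : Finset ℕ) (c : ℕ → ℝ) (P : ℕ → ℤ)
    (hP : ∀ x y, P x = P y → x = y) :
    ∫ θ in (0 : ℝ)..1, ‖∑ x ∈ S, (c x : ℂ) * ex ((P x : ℝ) * θ)‖ ^ 2 = ∑ x ∈ S, c x ^ 2 := by
  rw [Pool.Agent.SP80.spp ℕ S c P]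
  refine Finset.sum_congr rfl fun x hx => ?_
  rw [Finset.sum_eq_single x]
  · rw [if_pos rfl, pow_two]
  · intro y _ hy
    rw [if_neg fun h => hy (hP x y h).symm]
  · intro h
    exact absurd hx h

theorem p_tri : S_tri := by
  intro u0 u1 δ κ S0 S1 Sn F0 F1 g T hu0 hδ hT
  set A : ℝ → ℂ := fun θ => ∑ k ∈ S0, (F0 k : ℂ) * ex ((-(u1 : ℝ) * θ) * k) with hA
  set B : ℝ → ℂ := fun θ => ∑ k ∈ S1, (F1 k : ℂ) * ex (((u0 * (k : ℤ) : ℤ) : ℝ) * θ) with hB
  set C : ℝ → ℂ := fun θ => ∑ n ∈ Sn, (g n : ℂ) * ex (((-(δ * (n : ℤ) + κ) : ℤ) : ℝ) * θ) with hC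
  have hAc : Continuous A := by
    rw [hA]
    refine continuous_finsetSum _ fun k _ => continuous_const.mul (te_tri_ex_cont.comp ?_)
    fun_prop
  have hBc : Continuous B := by
    rw [hB]
    refine continuous_finsetSum _ fun k _ => continuous_const.mul (te_tri_ex_cont.comp ?_)
    fun_prop
  have hCc : Continuous C := by
    rw [hC]
    refine continuous_finsetSum _ fun k _ => continuous_const.mul (te_tri_ex_cont.comp ?_)
    fun_prop
  have hAT : ∀ θ, ‖A θ‖ ≤ T := fun θ => hT _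
  have hT0 : 0 ≤ T := (norm_nonneg _).trans (hAT 0)
  have hprod : ∀ θ, A θ * B θ * C θ = ∑ n ∈ Sn, ∑ k0 ∈ S0, ∑ k1 ∈ S1,
      ((g n * (F0 k0 * F1 k1) : ℝ) : ℂ) *
        ex (((u0 * (k1 : ℤ) - u1 * (k0 : ℤ) - (δ * (n : ℤ) + κ) : ℤ) : ℝ) * θ) := by
    intro θ
    rw [hA, hB, hC]
    simp only
    rw [mul_comm, Finset.sum_mul_sum, Finset.sum_mul_sum]
    refine Finset.sum_congr rfl fun n _ => ?_
    refine Finset.sum_congr rfl fun k0 _ => ?_
    rw [Finset.mul_sum]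
    refine Finset.sum_congr rfl fun k1 _ => ?_
    have e : (((u0 * (k1 : ℤ) - u1 * (k0 : ℤ) - (δ * (n : ℤ) + κ) : ℤ) : ℝ) * θ) =
        ((-(u1 : ℝ) * θ) * k0) + ((((u0 * (k1 : ℤ) : ℤ) : ℝ) * θ) +
          (((-(δ * (n : ℤ) + κ) : ℤ) : ℝ) * θ)) := by
      push_cast
      ring
    rw [e, te_tri_ex_add, te_tri_ex_add]
    push_cast
    ring
  have hint : ∫ θ in (0 : ℝ)..1, A θ * B θ * C θ =
      ((∑ n ∈ Sn, ∑ k0 ∈ S0, ∑ k1 ∈ S1,
        if u0 * (k1 : ℤ) - u1 * (k0 : ℤ) = δ * (n : ℤ) + κ then g n * (F0 k0 * F1 k1) else 0 : ℝ)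
          : ℂ) := by
    simp_rw [hprod]
    have hii : ∀ (n k0 k1 : ℕ), IntervalIntegrable (fun θ : ℝ =>
        ((g n * (F0 k0 * F1 k1) : ℝ) : ℂ) *
        ex (((u0 * (k1 : ℤ) - u1 * (k0 : ℤ) - (δ * (n : ℤ) + κ) : ℤ) : ℝ) * θ)) volume 0 1 := by
      intro n k0 k1
      have : Continuous (fun θ : ℝ => ((g n * (F0 k0 * F1 k1) : ℝ) : ℂ) *
        ex (((u0 * (k1 : ℤ) - u1 * (k0 : ℤ) - (δ * (n : ℤ) + κ) : ℤ) : ℝ) * θ)) :=
        continuous_const.mul (te_tri_ex_cont.comp (continuous_const.mul continuous_id))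
      exact this.intervalIntegrable _ _
    have hi1 : ∀ (n k0 : ℕ), IntervalIntegrable (fun θ : ℝ => ∑ k1 ∈ S1,
        ((g n * (F0 k0 * F1 k1) : ℝ) : ℂ) *
        ex (((u0 * (k1 : ℤ) - u1 * (k0 : ℤ) - (δ * (n : ℤ) + κ) : ℤ) : ℝ) * θ)) volume 0 1 := by
      intro n k0
      have : Continuous (fun θ : ℝ => ∑ k1 ∈ S1, ((g n * (F0 k0 * F1 k1) : ℝ) : ℂ) *
        ex (((u0 * (k1 : ℤ) - u1 * (k0 : ℤ) - (δ * (n : ℤ) + κ) : ℤ) : ℝ) * θ)) :=
        continuous_finsetSum _ fun k _ =>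
          continuous_const.mul (te_tri_ex_cont.comp (continuous_const.mul continuous_id))
      exact this.intervalIntegrable _ _
    have hi2 : ∀ (n : ℕ), IntervalIntegrable (fun θ : ℝ => ∑ k0 ∈ S0, ∑ k1 ∈ S1,
        ((g n * (F0 k0 * F1 k1) : ℝ) : ℂ) *
        ex (((u0 * (k1 : ℤ) - u1 * (k0 : ℤ) - (δ * (n : ℤ) + κ) : ℤ) : ℝ) * θ)) volume 0 1 := by
      intro n
      have : Continuous (fun θ : ℝ => ∑ k0 ∈ S0, ∑ k1 ∈ S1, ((g n * (F0 k0 * F1 k1) : ℝ) : ℂ) *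
        ex (((u0 * (k1 : ℤ) - u1 * (k0 : ℤ) - (δ * (n : ℤ) + κ) : ℤ) : ℝ) * θ)) :=
        continuous_finsetSum _ fun k0 _ => continuous_finsetSum _ fun k _ =>
          continuous_const.mul (te_tri_ex_cont.comp (continuous_const.mul continuous_id))
      exact this.intervalIntegrable _ _
    rw [intervalIntegral.integral_finsetSum fun n _ => hi2 n, Complex.ofReal_sum]
    refine Finset.sum_congr rfl fun n _ => ?_
    rw [intervalIntegral.integral_finsetSum fun k0 _ => hi1 n k0, Complex.ofReal_sum]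
    refine Finset.sum_congr rfl fun k0 _ => ?_
    rw [intervalIntegral.integral_finsetSum fun k1 _ => hii n k0 k1, Complex.ofReal_sum]
    refine Finset.sum_congr rfl fun k1 _ => ?_
    rw [intervalIntegral.integral_const_mul, te_tri_int]
    by_cases h : u0 * (k1 : ℤ) - u1 * (k0 : ℤ) = δ * (n : ℤ) + κ
    · rw [if_pos h, if_pos (sub_eq_zero.2 h), mul_one]
    · rw [if_neg h, if_neg (fun h' => h (sub_eq_zero.1 h')), mul_zero, Complex.ofReal_zero]
  rw [← Real.norm_eq_abs, ← Complex.norm_real, ← hint]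
  have hB2 : ∫ θ in (0 : ℝ)..1, ‖B θ‖ ^ 2 = ∑ k ∈ S1, F1 k ^ 2 := by
    rw [hB]
    refine te_tri_par S1 F1 (fun k => u0 * (k : ℤ)) fun x y h => ?_
    have := mul_left_cancel₀ hu0 h
    exact_mod_cast this
  have hC2 : ∫ θ in (0 : ℝ)..1, ‖C θ‖ ^ 2 = ∑ n ∈ Sn, g n ^ 2 := by
    rw [hC]
    refine te_tri_par Sn g (fun n => -(δ * (n : ℤ) + κ)) fun x y h => ?_
    have h1 : δ * (x : ℤ) = δ * (y : ℤ) := by
      have h2 : -(δ * (x : ℤ) + κ) = -(δ * (y : ℤ) + κ) := h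
      linarith
    have := mul_left_cancel₀ hδ h1
    exact_mod_cast this
  calc ‖∫ θ in (0 : ℝ)..1, A θ * B θ * C θ‖
      ≤ ∫ θ in (0 : ℝ)..1, ‖A θ * B θ * C θ‖ :=
        intervalIntegral.norm_integral_le_integral_norm zero_le_one
    _ ≤ ∫ θ in (0 : ℝ)..1, T * (‖B θ‖ * ‖C θ‖) := by
        refine intervalIntegral.integral_mono_on zero_le_one
          (((hAc.mul hBc).mul hCc).norm.intervalIntegrable _ _)
          ((continuous_const.mul (hBc.norm.mul hCc.norm)).intervalIntegrable _ _) fun θ _ => ?_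
        rw [norm_mul, norm_mul, mul_assoc]
        exact mul_le_mul_of_nonneg_right (hAT θ) (by positivity)
    _ = T * ∫ θ in (0 : ℝ)..1, ‖B θ‖ * ‖C θ‖ := intervalIntegral.integral_const_mul _ _
    _ ≤ T * (Real.sqrt (∫ θ in (0 : ℝ)..1, ‖B θ‖ ^ 2) * Real.sqrt (∫ θ in (0 : ℝ)..1, ‖C θ‖ ^ 2)) :=
        mul_le_mul_of_nonneg_left (te_tri_cs _ _ hBc.norm hCc.norm) hT0
    _ = T * Real.sqrt (∑ k ∈ S1, F1 k ^ 2) * Real.sqrt (∑ n ∈ Sn, g n ^ 2) := by
        rw [hB2, hC2]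
        ring

end Pool.Agent.TC.E
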